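import Pool.Agent.W76.MO.Asm6
import Pool.Agent.W76.MO.Stmts

/-!
# MP_768c9c_nt: completely multiplicative functions, basic definitions
-/

set_option autoImplicit false

namespace Q236.CM

open Finset Filter Topology
open scoped Classical
open Pool.Agent.W76.MO

/-- the completely multiplicative function with values `h p` at the primes -/
noncomputable def LP (h : ℕ → ℝ) (n : ℕ) : ℝ := (n.primeFactorsList.map h).prod

theorem LP_one (h : ℕ → ℝ) : LP h 1 = 1 := by simp [LP]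

theorem LP_mul (h : ℕ → ℝ) {m n : ℕ} (hm : m ≠ 0) (hn : n ≠ 0) :
    LP h (m * n) = LP h m * LP h n := by
  unfold LP
  rw [((Nat.perm_primeFactorsList_mul hm hn).map h).prod_eq, List.map_append, List.prod_append]

theorem LP_prime (h : ℕ → ℝ) {p : ℕ} (hp : p.Prime) : LP h p = h p := by
  simp [LP, Nat.primeFactorsList_prime hp]

theorem LP_sqf (h : ℕ → ℝ) {n : ℕ} (hn : Squarefree n) :
    LP h n = ∏ p ∈ n.primeFactors, h p := by
  unfold LP Nat.primeFactors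
  rw [List.prod_toFinset _ ((Nat.squarefree_iff_nodup_primeFactorsList hn.ne_zero).1 hn)]

theorem LP_nonneg (h : ℕ → ℝ) (hh : ∀ p, 0 ≤ h p) (n : ℕ) : 0 ≤ LP h n := by
  unfold LP
  apply List.prod_nonneg
  intro a ha
  obtain ⟨p, _, rfl⟩ := List.mem_map.1 ha
  exact hh p

theorem LP_le (h h' : ℕ → ℝ) (hh : ∀ p, 0 ≤ h p) {n : ℕ} (hn : n ≠ 0)
    (hle : ∀ p : ℕ, p.Prime → p ∣ n → h p ≤ h' p) : LP h n ≤ LP h' n := by
  induction n using induction_on_primes with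
  | zero => exact absurd rfl hn
  | one => rw [LP_one, LP_one]
  | prime_mul p a hp ih =>
    have ha : a ≠ 0 := by rintro rfl; simp at hn
    rw [LP_mul h hp.ne_zero ha, LP_mul h' hp.ne_zero ha, LP_prime h hp, LP_prime h' hp]
    have h1 := hle p hp (dvd_mul_right p a)
    exact mul_le_mul h1 (ih ha fun q hq hqa => hle q hq (hqa.mul_left p)) (LP_nonneg h hh a)
      ((hh p).trans h1)

theorem LP_one_le (h : ℕ → ℝ) (hh : ∀ p, 1 ≤ h p) {n : ℕ} (hn : n ≠ 0) : 1 ≤ LP h n := by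
  have h1 := LP_le (fun _ => (1 : ℝ)) h (fun _ => zero_le_one) hn (fun p _ _ => hh p)
  have h2 : LP (fun _ => (1 : ℝ)) n = 1 := by unfold LP; simp
  rw [h2] at h1
  exact h1

theorem LP_pow (θ : ℝ) {n : ℕ} (hn : n ≠ 0) :
    LP (fun p => (p : ℝ) ^ θ) n = (n : ℝ) ^ θ := by
  induction n using induction_on_primes with
  | zero => exact absurd rfl hn
  | one => rw [LP_one]; simp
  | prime_mul p a hp ih =>
    have ha : a ≠ 0 := by rintro rfl; simp at hn
    rw [LP_mul _ hp.ne_zero ha, LP_prime _ hp, ih ha]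
    push_cast
    rw [Real.mul_rpow (Nat.cast_nonneg p) (Nat.cast_nonneg a)]

theorem LP_mul_fun (h h' : ℕ → ℝ) (n : ℕ) :
    LP (fun p => h p * h' p) n = LP h n * LP h' n := by
  unfold LP
  exact List.prod_map_mul

theorem LP_sq_mul (h : ℕ → ℝ) {m s : ℕ} (hm : m ≠ 0) (hs : s ≠ 0) :
    LP h (m ^ 2 * s) = LP h m ^ 2 * LP h s := by
  rw [LP_mul h (pow_ne_zero 2 hm) hs, pow_two, LP_mul h hm hm, pow_two]

theorem LP_div (h : ℕ → ℝ) {n p : ℕ} (hn : n ≠ 0) (hp : p.Prime) (hd : p ∣ n) :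
    LP h n = h p * LP h (n / p) := by
  obtain ⟨m, rfl⟩ := hd
  have hm : m ≠ 0 := by rintro rfl; simp at hn
  rw [Nat.mul_div_cancel_left m hp.pos, LP_mul h hp.ne_zero hm, LP_prime h hp]

variable (E : Env)

/-- completely multiplicative majorant -/
noncomputable def E2s (j n : ℕ) : ℝ := LP (fun p => 1 + 2 * (p * E.g j p)) n

/-- the `R`-rough elements of a cell which are not squarefree -/
noncomputable def ns (R i k : ℕ) : Finset ℕ :=
  (cell E.δ i k).filter (fun n => ¬ Squarefree n ∧ Rough R n)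

theorem E2s_sqf (j : ℕ) {n : ℕ} (hn : Squarefree n) : E2s E j n = E.E2 j n := by
  unfold E2s Env.E2
  rw [LP_sqf _ hn]

variable {E}

theorem g_nn {j : ℕ} (hu : ∀ p, 0 ≤ E.gu j p) (hh : ∀ p, 0 ≤ E.gh j p) (p : ℕ) :
    0 ≤ E.g j p := add_nonneg (hu p) (hh p)

theorem E2s_nonneg {j : ℕ} (hu : ∀ p, 0 ≤ E.gu j p) (hh : ∀ p, 0 ≤ E.gh j p) (n : ℕ) :
    0 ≤ E2s E j n := by
  apply LP_nonneg
  intro p
  have := g_nn hu hh p
  positivity

theorem E2s_one_le {j : ℕ} (hu : ∀ p, 0 ≤ E.gu j p) (hh : ∀ p, 0 ≤ E.gh j p) {n : ℕ}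
    (hn : n ≠ 0) : 1 ≤ E2s E j n := by
  apply LP_one_le _ _ hn
  intro p
  have := g_nn hu hh p
  have h2 : 0 ≤ (p : ℝ) * E.g j p := by positivity
  linarith

theorem E2s_le {j : ℕ} (hu : ∀ p, 0 ≤ E.gu j p) (hh : ∀ p, 0 ≤ E.gh j p)
    (hf : ∀ p : ℕ, p.Prime → 1 + 2 * (p * E.g j p) ≤ (p : ℝ) ^ (9 * E.δ)) {n : ℕ} (hn : n ≠ 0) :
    E2s E j n ≤ (n : ℝ) ^ (9 * E.δ) := by
  rw [← LP_pow _ hn]
  refine LP_le _ _ (fun p => ?_) hn (fun p hp _ => hf p hp)
  have := g_nn hu hh p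
  positivity

theorem E2s_mul {j m n : ℕ} (hm : m ≠ 0) (hn : n ≠ 0) :
    E2s E j (m * n) = E2s E j m * E2s E j n := LP_mul _ hm hn

theorem E2s_one (j : ℕ) : E2s E j 1 = 1 := LP_one _

/-- splitting a product -/
theorem split_two (P : Finset ℕ) (u s : ℕ → ℝ) (hu : ∀ p, 0 ≤ u p) (hs : ∀ p, 0 ≤ s p) :
    ∏ p ∈ P, (1 + 2 * (u p + s p)) ≤
      2 * ∑ p ∈ P, u p * ∏ q ∈ P.erase p, (1 + 2 * (u q + s q)) + ∏ p ∈ P, (1 + 2 * s p) := by
  induction P using Finset.induction_on with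
  | empty => simp
  | insert a P ha ih =>
    rw [sum_insert_erase a P ha u (fun q => 1 + 2 * (u q + s q)), prod_insert ha, prod_insert ha]
    have hua := hu a
    have hsa := hs a
    have hB : 1 ≤ ∏ p ∈ P, (1 + 2 * s p) :=
      one_le_prod1 P (fun p => 2 * s p) fun p => by linarith [hs p]
    have hA : 0 ≤ ∑ p ∈ P, u p * ∏ q ∈ P.erase p, (1 + 2 * (u q + s q)) :=
      sum_nonneg fun p _ => mul_nonneg (hu p) (prod_nonneg fun q _ => by linarith [hu q, hs q])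
    set A := ∑ p ∈ P, u p * ∏ q ∈ P.erase p, (1 + 2 * (u q + s q)) with hAd
    set B := ∏ p ∈ P, (1 + 2 * s p) with hBd
    set F := ∏ p ∈ P, (1 + 2 * (u p + s p)) with hFd
    have h1 : (1 + 2 * s a) * F ≤ (1 + 2 * s a) * (2 * A + B) :=
      mul_le_mul_of_nonneg_left ih (by linarith)
    have h2 : 0 ≤ u a * A := mul_nonneg hua hA
    nlinarith

end Q236.CM
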