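import Pool.Agent.Q236.CM.Base
import Pool.Agent.W683.MO.SP

/-!
# The host part of the small products, averaged over an interval
-/

set_option autoImplicit false

namespace Q236.CM

open Finset Filter Topology
open scoped Classical
open Pool.Agent.W76.MO
open Pool.Agent.W683.MO (large card_mult B_point prod_one_add_le_exp)

/-- (B) -/
theorem B_gen (E : Env) (hG : E.GBounds) : ∃ J : ℕ, 1 ≤ J ∧ ∀ j : ℕ, J ≤ j → ∀ i : ℕ, j ≤ i →
    ∀ a L : ℕ, (2 : ℝ) ^ (3 / 10 * (i : ℝ)) ≤ L → a + L ≤ 2 ^ (i + 1) → ∑ n ∈ Ioc a (a + L),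
      ∏ p ∈ n.primeFactors.filter (fun p : ℕ => (p : ℝ) ≤ (2 : ℝ) ^ (1 / 20 * (i : ℝ))),
        (1 + 2 * (p * E.gh j p)) ≤ 5 * L := by
  have hδ := E.hδ
  have hδt := E.hδ'
  have hτ := E.hτ
  have hτ' := E.hτ'
  obtain ⟨J0, hJ0, hJ⟩ := hG
  obtain ⟨J1, hJ1⟩ := large (E.τ / 16 - 9 * E.δ) 8 0 (by linarith)
  refine ⟨J0 + J1 + 3, by omega, fun j hj i hij a L hL haL => ?_⟩
  obtain ⟨-, -, g3, -, g5, -, g7, g8, -⟩ := hJ j (by omega)
  have hjR : (3 : ℝ) ≤ j := by exact_mod_cast (by omega : 3 ≤ j)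
  have hh0 : (0 : ℝ) < L := lt_of_lt_of_le (by positivity) hL
  set b : ℕ → ℝ := fun q => 2 * (q * E.gh j q) with hb
  have hb0 : ∀ q, 0 ≤ b q := by
    intro q
    have := g3 q
    simp only [hb]
    positivity
  set Q : Finset ℕ := (range (2 ^ i + 1)).filter (fun q : ℕ =>
    (q : ℝ) ≤ (2 : ℝ) ^ (1 / 20 * (i : ℝ)) ∧ E.gh j q ≠ 0) with hQ
  have hQp : ∀ q ∈ Q, q.Prime := by
    intro q hq
    rw [hQ, mem_filter] at hq
    exact (g5 q hq.2.2).1.1
  have hiR : (0 : ℝ) ≤ i := by positivity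
  have e1 : ∀ n ∈ Ioc a (a + L),
      ∏ p ∈ n.primeFactors.filter (fun p : ℕ => (p : ℝ) ≤ (2 : ℝ) ^ (1 / 20 * (i : ℝ))),
        (1 + 2 * (p * E.gh j p)) = ∏ q ∈ Q.filter (fun q => q ∣ n), (1 + b q) := by
    intro n hn
    have hn2 : 1 ≤ n ∧ n ≤ 2 ^ (i + 1) := by rw [mem_Ioc] at hn; omega
    have e2 : Q.filter (fun q => q ∣ n) = (n.primeFactors.filter
        (fun p : ℕ => (p : ℝ) ≤ (2 : ℝ) ^ (1 / 20 * (i : ℝ)))).filter
          (fun p => E.gh j p ≠ 0) := by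
      ext q
      simp only [hQ, mem_filter, Nat.mem_primeFactors, mem_range]
      constructor
      · rintro ⟨⟨h1, h2, h3⟩, h4⟩
        exact ⟨⟨⟨(g5 q h3).1.1, h4, by omega⟩, h2⟩, h3⟩
      · rintro ⟨⟨⟨h1, h2, h3⟩, h4⟩, h5⟩
        refine ⟨⟨?_, h4, h5⟩, h2⟩
        have h6 : (q : ℝ) ≤ 2 ^ i := by
          refine h4.trans ?_
          rw [← Real.rpow_natCast]
          apply Real.rpow_le_rpow_of_exponent_le (by norm_num)
          linarith
        have h7 : q ≤ 2 ^ i := by exact_mod_cast h6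
        omega
    rw [e2]
    symm
    apply prod_filter_of_ne
    intro p _ hne h0
    apply hne
    simp only [hb]
    rw [h0]; ring
  rw [sum_congr rfl e1]
  set Z1 : ℝ := (2 : ℝ) ^ (1 / 4 * (i : ℝ)) with hZ1
  set Z2 : ℝ := (2 : ℝ) ^ (3 / 10 * (i : ℝ)) with hZ2
  set K : ℝ := 2 * (2 : ℝ) ^ (9 * E.δ * i) with hK
  set W1 := Q.powerset.filter (fun s => ((∏ q ∈ s, q : ℕ) : ℝ) ≤ Z1) with hW1
  set W2 := Q.powerset.filter (fun s => Z1 < ((∏ q ∈ s, q : ℕ) : ℝ) ∧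
          ((∏ q ∈ s, q : ℕ) : ℝ) ≤ Z2) with hW2
  have hZ12 : Z1 ≤ Z2 := by
    apply Real.rpow_le_rpow_of_exponent_le (by norm_num)
    linarith
  have hpt : ∀ n ∈ Ioc a (a + L), ∏ q ∈ Q.filter (fun q => q ∣ n), (1 + b q) ≤
      ∑ s ∈ W1, (∏ q ∈ s, b q) * (if (∏ q ∈ s, q) ∣ n then 1 else 0) +
      K * ∑ s ∈ W2, (if (∏ q ∈ s, q) ∣ n then (1 : ℝ) else 0) := by
    intro n hn
    have hn2 : 1 ≤ n ∧ n ≤ 2 ^ (i + 1) := by rw [mem_Ioc] at hn; omega
    apply B_point b hb0 Q hQp (9 * E.δ) Z1 Z2 K ((2 : ℝ) ^ (1 / 20 * (i : ℝ))) (by linarith)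
    · intro q hq
      rw [hQ, mem_filter] at hq
      exact (g7 q hq.2.2).2
    · intro q hq
      rw [hQ, mem_filter] at hq
      exact hq.2.1
    · exact Real.one_le_rpow (by norm_num) (by positivity)
    · rw [hZ1, hZ2, ← Real.rpow_add (by norm_num)]
      apply le_of_eq
      congr 1; ring
    · omega
    · have hnR : (n : ℝ) ≤ (2 : ℝ) ^ ((i : ℝ) + 1) := by
        have : (n : ℝ) ≤ 2 ^ (i + 1) := by exact_mod_cast hn2.2
        rw [← Real.rpow_natCast] at this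
        push_cast at this
        exact this
      calc (n : ℝ) ^ (9 * E.δ) ≤ ((2 : ℝ) ^ ((i : ℝ) + 1)) ^ (9 * E.δ) :=
            Real.rpow_le_rpow (by positivity) hnR (by linarith)
        _ = (2 : ℝ) ^ (((i : ℝ) + 1) * (9 * E.δ)) := by rw [← Real.rpow_mul (by norm_num)]
        _ ≤ (2 : ℝ) ^ (1 + 9 * E.δ * i) := by
            apply Real.rpow_le_rpow_of_exponent_le (by norm_num)
            nlinarith
        _ = K := by rw [hK, Real.rpow_add (by norm_num), Real.rpow_one]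
  refine (sum_le_sum hpt).trans ?_
  rw [sum_add_distrib, ← mul_sum, sum_comm (s := Ioc a (a + L)) (t := W1),
    sum_comm (s := Ioc a (a + L)) (t := W2)]
  -- counting
  have hZ2h : Z2 ≤ L := hL
  have hcount : ∀ s ∈ Q.powerset, ((∏ q ∈ s, q : ℕ) : ℝ) ≤ Z2 →
      ∑ n ∈ Ioc a (a + L), (if (∏ q ∈ s, q) ∣ n then (1 : ℝ) else 0) ≤
        2 * L / ((∏ q ∈ s, q : ℕ) : ℝ) := by
    intro s hs hle
    rw [mem_powerset] at hs
    have hpos : 0 < ∏ q ∈ s, q := prod_pos (fun q hq => (hQp q (hs hq)).pos)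
    have hposR : (0 : ℝ) < ((∏ q ∈ s, q : ℕ) : ℝ) := by exact_mod_cast hpos
    rw [sum_boole]
    have h1 := card_mult a L (∏ q ∈ s, q) hpos
    refine h1.trans ?_
    have h3 : (1 : ℝ) ≤ L / ((∏ q ∈ s, q : ℕ) : ℝ) := by
      rw [le_div_iff₀ hposR, one_mul]
      exact hle.trans hZ2h
    have h4 : 2 * (L : ℝ) / ((∏ q ∈ s, q : ℕ) : ℝ) =
        L / ((∏ q ∈ s, q : ℕ) : ℝ) + L / ((∏ q ∈ s, q : ℕ) : ℝ) := by ring
    rw [h4]
    linarith
  have hexp1 : Real.exp (1 / j) ≤ 2 := by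
    have h1 : (1 : ℝ) / j ≤ 1 / 3 := one_div_le_one_div_of_le (by norm_num) hjR
    calc Real.exp (1 / j) ≤ Real.exp (Real.log 2) := by
          apply Real.exp_le_exp.2
          have := Real.log_two_gt_d9
          linarith
      _ = 2 := Real.exp_log (by norm_num)
  have hexp2 : Real.exp (2 / j) ≤ 2 := by
    have h1 : (2 : ℝ) / j ≤ 2 / 3 := div_le_div_of_nonneg_left (by norm_num) (by norm_num) hjR
    calc Real.exp (2 / j) ≤ Real.exp (Real.log 2) := by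
          apply Real.exp_le_exp.2
          have := Real.log_two_gt_d9
          linarith
      _ = 2 := Real.exp_log (by norm_num)
  have g8Q := g8 Q
  have hqpos : ∀ q ∈ Q, (1 : ℝ) ≤ q := fun q hq => by exact_mod_cast (hQp q hq).one_lt.le
  -- first sum
  have hS1 : ∑ s ∈ W1, ∑ n ∈ Ioc a (a + L),
      (∏ q ∈ s, b q) * (if (∏ q ∈ s, q) ∣ n then (1 : ℝ) else 0) ≤ 4 * L := by
    have h1 : ∀ s ∈ W1, ∑ n ∈ Ioc a (a + L),
        (∏ q ∈ s, b q) * (if (∏ q ∈ s, q) ∣ n then (1 : ℝ) else 0) ≤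
        2 * L * ∏ q ∈ s, (b q / q) := by
      intro s hs
      rw [hW1, mem_filter] at hs
      rw [← mul_sum]
      have h2 := hcount s hs.1 (hs.2.trans hZ12)
      have h3 : 0 ≤ ∏ q ∈ s, b q := prod_nonneg (fun q _ => hb0 q)
      refine (mul_le_mul_of_nonneg_left h2 h3).trans (le_of_eq ?_)
      rw [prod_div_distrib]
      push_cast
      ring
    refine (sum_le_sum h1).trans ?_
    rw [← mul_sum]
    have h4 : ∑ s ∈ W1, ∏ q ∈ s, (b q / q) ≤ ∑ s ∈ Q.powerset, ∏ q ∈ s, (b q / q) := by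
      apply sum_le_sum_of_subset_of_nonneg (filter_subset _ _)
      intro s _ _
      exact prod_nonneg (fun q _ => div_nonneg (hb0 q) (Nat.cast_nonneg q))
    rw [← prod_one_add] at h4
    have h5 := prod_one_add_le_exp Q (fun q => b q / q)
      (fun q => div_nonneg (hb0 q) (Nat.cast_nonneg q))
    have h6 : ∑ q ∈ Q, b q / q ≤ 2 / j := by
      have h7 : ∀ q ∈ Q, b q / q ≤ 2 * ((q * E.gh j q) * (q : ℝ) ^ (-1 + E.τ / 4)) := by
        intro q hq
        have h8 := hqpos q hq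
        have h9 : (q : ℝ) ^ (-1 + E.τ / 4) ≥ (q : ℝ)⁻¹ := by
          rw [← Real.rpow_neg_one]
          apply Real.rpow_le_rpow_of_exponent_le h8
          linarith
        simp only [hb]
        have h10 : 0 ≤ (q : ℝ) * E.gh j q := mul_nonneg (by linarith) (g3 q)
        rw [div_eq_mul_inv]
        nlinarith
      refine (sum_le_sum h7).trans ?_
      rw [← mul_sum]
      have h11 : (2 : ℝ) / j = 2 * (1 / j) := by ring
      rw [h11]
      exact mul_le_mul_of_nonneg_left g8Q (by norm_num)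
    have h12 : ∑ s ∈ W1, ∏ q ∈ s, (b q / q) ≤ 2 :=
      h4.trans (h5.trans ((Real.exp_le_exp.2 h6).trans hexp2))
    nlinarith
  -- second sum
  have hS2 : K * ∑ s ∈ W2, ∑ n ∈ Ioc a (a + L), (if (∏ q ∈ s, q) ∣ n then (1 : ℝ) else 0) ≤
      L := by
    have h1 : ∀ s ∈ W2, ∑ n ∈ Ioc a (a + L), (if (∏ q ∈ s, q) ∣ n then (1 : ℝ) else 0) ≤
        2 * L * (2 : ℝ) ^ (-(E.τ / 16) * (i : ℝ)) * ∏ q ∈ s, (q : ℝ) ^ (-1 + E.τ / 4) := by
      intro s hs
      rw [hW2, mem_filter] at hs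
      obtain ⟨hs1, hs2, hs3⟩ := hs
      refine (hcount s hs1 hs3).trans ?_
      rw [Real.finsetProd_rpow _ _ (fun q _ => Nat.cast_nonneg q)]
      have hd : ((∏ q ∈ s, q : ℕ) : ℝ) = ∏ q ∈ s, (q : ℝ) := by push_cast; rfl
      rw [hd]
      rw [hd] at hs2
      set d : ℝ := ∏ q ∈ s, (q : ℝ) with hdd
      have hZpos : (0 : ℝ) < Z1 := by positivity
      have hdpos : 0 < d := hZpos.trans hs2
      have h2 : d ^ (-1 + E.τ / 4) = d⁻¹ * d ^ (E.τ / 4) := by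
        rw [Real.rpow_add hdpos, Real.rpow_neg_one]
      have h3 : (2 : ℝ) ^ (E.τ / 16 * (i : ℝ)) ≤ d ^ (E.τ / 4) := by
        have h4 : (2 : ℝ) ^ (E.τ / 16 * (i : ℝ)) = Z1 ^ (E.τ / 4) := by
          rw [hZ1, ← Real.rpow_mul (by norm_num)]
          congr 1; ring
        rw [h4]
        exact Real.rpow_le_rpow hZpos.le hs2.le (by linarith)
      have h5 : (2 : ℝ) ^ (-(E.τ / 16) * (i : ℝ)) * (2 : ℝ) ^ (E.τ / 16 * (i : ℝ)) = 1 := by
        rw [← Real.rpow_add (by norm_num)]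
        rw [show -(E.τ / 16) * (i : ℝ) + E.τ / 16 * (i : ℝ) = 0 by ring, Real.rpow_zero]
      rw [h2]
      have h6 : 2 * (L : ℝ) / d = 2 * L * d⁻¹ *
          ((2 : ℝ) ^ (-(E.τ / 16) * (i : ℝ)) * (2 : ℝ) ^ (E.τ / 16 * (i : ℝ))) := by
        rw [h5]; ring
      rw [h6]
      have h7 : 2 * (L : ℝ) * d⁻¹ *
          ((2 : ℝ) ^ (-(E.τ / 16) * (i : ℝ)) * (2 : ℝ) ^ (E.τ / 16 * (i : ℝ))) ≤
          2 * (L : ℝ) * d⁻¹ *
          ((2 : ℝ) ^ (-(E.τ / 16) * (i : ℝ)) * d ^ (E.τ / 4)) := by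
        apply mul_le_mul_of_nonneg_left _ (by positivity)
        exact mul_le_mul_of_nonneg_left h3 (by positivity)
      refine h7.trans (le_of_eq ?_)
      ring
    have h2 : ∑ s ∈ W2, ∑ n ∈ Ioc a (a + L), (if (∏ q ∈ s, q) ∣ n then (1 : ℝ) else 0) ≤
        2 * L * (2 : ℝ) ^ (-(E.τ / 16) * (i : ℝ)) * 2 := by
      refine (sum_le_sum h1).trans ?_
      rw [← mul_sum]
      apply mul_le_mul_of_nonneg_left _ (by positivity)
      have h4 : ∑ s ∈ W2, ∏ q ∈ s, (q : ℝ) ^ (-1 + E.τ / 4) ≤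
          ∑ s ∈ Q.powerset, ∏ q ∈ s, (q : ℝ) ^ (-1 + E.τ / 4) := by
        apply sum_le_sum_of_subset_of_nonneg (filter_subset _ _)
        intro s _ _
        exact prod_nonneg (fun q _ => by positivity)
      rw [← prod_one_add] at h4
      have h5 := prod_one_add_le_exp Q (fun q => (q : ℝ) ^ (-1 + E.τ / 4))
        (fun q => by positivity)
      have h6 : ∑ q ∈ Q, (q : ℝ) ^ (-1 + E.τ / 4) ≤ 1 / j := by
        refine le_trans (sum_le_sum ?_) g8Q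
        intro q hq
        rw [hQ, mem_filter] at hq
        have h7 := (g5 q hq.2.2).2.2
        have h8 : 0 ≤ (q : ℝ) ^ (-1 + E.τ / 4) := by positivity
        nlinarith
      exact h4.trans (h5.trans ((Real.exp_le_exp.2 h6).trans hexp1))
    have hbig := hJ1 i (by omega)
    rw [pow_zero, mul_one] at hbig
    have h3 : (2 : ℝ) ^ (9 * E.δ * i) * (2 : ℝ) ^ ((E.τ / 16 - 9 * E.δ) * i) *
        (2 : ℝ) ^ (-(E.τ / 16) * (i : ℝ)) = 1 := by
      rw [← Real.rpow_add (by norm_num), ← Real.rpow_add (by norm_num)]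
      rw [show 9 * E.δ * i + (E.τ / 16 - 9 * E.δ) * i + -(E.τ / 16) * (i : ℝ) = 0 by ring,
        Real.rpow_zero]
    have hKpos : 0 ≤ K := by positivity
    refine (mul_le_mul_of_nonneg_left h2 hKpos).trans ?_
    rw [hK]
    have h4 : 2 * (2 : ℝ) ^ (9 * E.δ * i) * (2 * L * (2 : ℝ) ^ (-(E.τ / 16) * (i : ℝ)) * 2)
        = L * ((2 : ℝ) ^ (9 * E.δ * i) * 8 * (2 : ℝ) ^ (-(E.τ / 16) * (i : ℝ))) := by ring
    rw [h4]
    have h5 : (2 : ℝ) ^ (9 * E.δ * i) * 8 * (2 : ℝ) ^ (-(E.τ / 16) * (i : ℝ)) ≤ 1 := by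
      rw [← h3]
      apply mul_le_mul_of_nonneg_right _ (by positivity)
      exact mul_le_mul_of_nonneg_left hbig (by positivity)
    nlinarith
  linarith


end Q236.CM
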