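import Pool.Agent.Q236.CM.Base
import Pool.Agent.W280.MO.ES

/-!
# The Euler product sum over all rough numbers is small
-/

set_option autoImplicit false

namespace Q236.CM

open Finset Filter Topology
open scoped Classical
open Pool.Agent.W76.MO

theorem rough_div {R : ℝ} {n d : ℕ} (h : Rough R n) (hd : d ∣ n) : Rough R d :=
  fun p hp hpd => h p hp (hpd.trans hd)

/-- sum of a completely multiplicative function over rough numbers -/
theorem lp_sum (a : ℕ → ℝ) (ha0 : ∀ p, 0 ≤ a p) (R M : ℕ) (s : ℝ)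
    (hs : ∑ p ∈ (Icc R M).filter Nat.Prime, a p ≤ s) (hs2 : s ≤ 1 / 2) :
    ∑ t ∈ (Icc 2 M).filter (fun t => Rough R t), LP a t ≤ 2 * s := by
  set P : Finset ℕ := (Icc R M).filter Nat.Prime with hP
  set A : Finset ℕ := (Icc 2 M).filter (fun t => Rough R t) with hA
  set B : Finset ℕ := (Icc 1 M).filter (fun t => Rough R t) with hB
  have hL0 : ∀ t, 0 ≤ LP a t := LP_nonneg a ha0
  have hAmem : ∀ t ∈ A, 2 ≤ t ∧ t ≤ M ∧ Rough R t ∧ (Nat.minFac t).Prime ∧ Nat.minFac t ∣ t ∧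
      0 < t / Nat.minFac t := by
    intro t ht
    rw [hA, mem_filter, mem_Icc] at ht
    have hp : (Nat.minFac t).Prime := Nat.minFac_prime (by omega)
    have hd := Nat.minFac_dvd t
    exact ⟨ht.1.1, ht.1.2, ht.2, hp, hd,
      Nat.div_pos (Nat.le_of_dvd (by omega) hd) hp.pos⟩
  have h1 : ∑ t ∈ A, LP a t ≤ ∑ x ∈ P ×ˢ B, a x.1 * LP a x.2 := by
    have e1 : ∑ t ∈ A, LP a t =
        ∑ t ∈ A, a ((Nat.minFac t, t / Nat.minFac t) : ℕ × ℕ).1 *
          LP a ((Nat.minFac t, t / Nat.minFac t) : ℕ × ℕ).2 := by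
      refine sum_congr rfl fun t ht => ?_
      obtain ⟨h2, -, -, hp, hd, -⟩ := hAmem t ht
      exact LP_div a (by omega) hp hd
    have hinj : Set.InjOn (fun t : ℕ => ((Nat.minFac t, t / Nat.minFac t) : ℕ × ℕ)) A := by
      intro t ht t' ht' h
      have k1 := (hAmem t ht).2.2.2.2.1
      have k2 := (hAmem t' ht').2.2.2.2.1
      simp only [Prod.mk.injEq] at h
      rw [← Nat.div_mul_cancel k1, ← Nat.div_mul_cancel k2, h.2, h.1]
    rw [e1, ← sum_image (f := fun x : ℕ × ℕ => a x.1 * LP a x.2) hinj]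
    refine sum_le_sum_of_subset_of_nonneg ?_ fun x _ _ => mul_nonneg (ha0 _) (hL0 _)
    intro x hx
    obtain ⟨t, ht, rfl⟩ := mem_image.1 hx
    obtain ⟨h2, h3, h4, hp, hd, h5⟩ := hAmem t ht
    rw [mem_product, hP, hB, mem_filter, mem_filter, mem_Icc, mem_Icc]
    refine ⟨⟨⟨?_, ?_⟩, hp⟩, ⟨h5, (Nat.div_le_self _ _).trans h3⟩,
      rough_div h4 (Nat.div_dvd_of_dvd hd)⟩
    · exact_mod_cast h4 _ hp hd
    · exact (Nat.le_of_dvd (by omega) hd).trans h3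
  rw [sum_product] at h1
  have h2 : ∑ x ∈ P, ∑ y ∈ B, a x * LP a y = (∑ x ∈ P, a x) * ∑ y ∈ B, LP a y := by
    rw [sum_mul_sum]
  simp only at h1
  rw [h2] at h1
  have h3 : ∑ y ∈ B, LP a y ≤ 1 + ∑ t ∈ A, LP a t := by
    have hsub : B ⊆ insert 1 A := by
      intro t ht
      rw [hB, mem_filter, mem_Icc] at ht
      rw [mem_insert, hA, mem_filter, mem_Icc]
      by_cases h : t = 1
      · exact Or.inl h
      · exact Or.inr ⟨⟨by omega, ht.1.2⟩, ht.2⟩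
    refine (sum_le_sum_of_subset_of_nonneg hsub fun t _ _ => hL0 t).trans ?_
    rw [sum_insert (by rw [hA, mem_filter, mem_Icc]; omega), LP_one]
  have hs0 : 0 ≤ ∑ p ∈ P, a p := sum_nonneg fun p _ => ha0 p
  have hT0 : 0 ≤ ∑ t ∈ A, LP a t := sum_nonneg fun t _ => hL0 t
  have h4 : (∑ x ∈ P, a x) * ∑ y ∈ B, LP a y ≤ s * (1 + ∑ t ∈ A, LP a t) :=
    mul_le_mul hs h3 (sum_nonneg fun y _ => hL0 y) (hs0.trans hs)
  have h5 := h1.trans h4
  nlinarith

theorem es (E : Env) (hGB : E.GBounds) : ∀ η : ℝ, 0 < η → ∃ R₀ : ℕ, ∀ R : ℕ, R₀ ≤ R →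
    ∃ J : ℕ, ∀ j : ℕ, J ≤ j → ∀ M : ℕ, ∑ t ∈ (Icc 2 M).filter (fun t => Rough R t),
      E2s E j t / t * (t : ℝ) ^ (-E.δ / 2) ≤ η := by
  intro η hη
  obtain ⟨J, hJ1, hJ⟩ := hGB
  set ε := min 1 η / 4 with hε
  have hm : 0 < min 1 η := lt_min one_pos hη
  have hε0 : 0 < ε := by positivity
  obtain ⟨R₀, hR₀⟩ := Pool.Agent.W280.MO.tail_small E.hδ hε0
  refine ⟨R₀, fun R hR => ?_⟩
  obtain ⟨J', hJ'⟩ := exists_nat_gt (4 / ε)
  refine ⟨max J J', fun j hj M => ?_⟩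
  obtain ⟨-, hgu, hgh, -, -, -, -, hsh, hsu⟩ := hJ j ((le_max_left _ _).trans hj)
  have hj0 : (0 : ℝ) < j := by
    have : 1 ≤ j := hJ1.trans ((le_max_left _ _).trans hj)
    exact_mod_cast this
  have hjε : 4 / (j : ℝ) ≤ ε := by
    have h1 : (J' : ℝ) ≤ j := by exact_mod_cast (le_max_right _ _).trans hj
    have h2 : 4 / ε < j := hJ'.trans_le h1
    rw [div_lt_iff₀ hε0] at h2
    rw [div_le_iff₀ hj0]
    linarith
  set a : ℕ → ℝ := fun p => (1 + 2 * (p * E.g j p)) * (p : ℝ) ^ (-1 - E.δ / 2) with ha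
  have hg0 : ∀ p, 0 ≤ E.g j p := fun p => add_nonneg (hgu p) (hgh p)
  have ha0 : ∀ p, 0 ≤ a p := fun p =>
    mul_nonneg (by have := hg0 p; positivity) (Real.rpow_nonneg (by positivity) _)
  set P : Finset ℕ := (Icc R M).filter Nat.Prime with hP
  -- the sum of the `a p`
  have hsum : ∑ p ∈ P, a p ≤ 2 * ε := by
    have h1 : ∑ p ∈ P, (p : ℝ) ^ (-1 - E.δ / 2) ≤ ε := hR₀ P (fun p hp => by
      rw [hP, mem_filter, mem_Icc] at hp
      exact hR.trans hp.1.1)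
    have h2 : ∀ p ∈ P, a p ≤ (p : ℝ) ^ (-1 - E.δ / 2) + 2 * (E.gu j p * (p : ℝ) ^ (-E.δ / 2)) +
        2 * ((p * E.gh j p) * (p : ℝ) ^ (-1 + E.τ / 4)) := by
      intro p hp
      rw [hP, mem_filter] at hp
      have hp1 : (1 : ℝ) ≤ p := by exact_mod_cast hp.2.one_lt.le
      have hp0 : (0 : ℝ) < p := by linarith
      have e1 : (p : ℝ) * (p : ℝ) ^ (-1 - E.δ / 2) = (p : ℝ) ^ (-E.δ / 2) := by
        nth_rewrite 1 [← Real.rpow_one (p : ℝ)]
        rw [← Real.rpow_add hp0]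
        congr 1; ring
      have e2 : (p : ℝ) ^ (-1 - E.δ / 2) ≤ (p : ℝ) ^ (-1 + E.τ / 4) :=
        Real.rpow_le_rpow_of_exponent_le hp1 (by have := E.hδ; have := E.hτ; linarith)
      have e3 : a p = (p : ℝ) ^ (-1 - E.δ / 2) +
          2 * (E.gu j p * ((p : ℝ) * (p : ℝ) ^ (-1 - E.δ / 2))) +
          2 * ((p * E.gh j p) * (p : ℝ) ^ (-1 - E.δ / 2)) := by
        simp only [ha, Env.g]; ring
      rw [e3, e1]
      have e4 : (p * E.gh j p) * (p : ℝ) ^ (-1 - E.δ / 2) ≤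
          (p * E.gh j p) * (p : ℝ) ^ (-1 + E.τ / 4) :=
        mul_le_mul_of_nonneg_left e2 (mul_nonneg hp0.le (hgh p))
      linarith
    refine (Finset.sum_le_sum h2).trans ?_
    rw [Finset.sum_add_distrib, Finset.sum_add_distrib, ← Finset.mul_sum, ← Finset.mul_sum]
    have h3 := hsu P
    have h4 := hsh P
    have h5 : 4 / (j : ℝ) = 4 * (1 / j) := by ring
    linarith
  have hmin1 : min 1 η ≤ 1 := min_le_left _ _
  have hmin2 : min 1 η ≤ η := min_le_right _ _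
  have h6 := lp_sum a ha0 R M (2 * ε) hsum (by rw [hε]; linarith)
  have hterm : ∀ t ∈ (Icc 2 M).filter (fun t => Rough R t),
      E2s E j t / t * (t : ℝ) ^ (-E.δ / 2) = LP a t := by
    intro t ht
    rw [mem_filter, mem_Icc] at ht
    have ht0 : t ≠ 0 := by omega
    have ht0' : (0 : ℝ) < t := by
      have : 0 < t := by omega
      exact_mod_cast this
    have e1 : LP a t = E2s E j t * (t : ℝ) ^ (-1 - E.δ / 2) := by
      unfold E2s
      rw [← LP_pow _ ht0, ← LP_mul_fun]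
    have e3 : (t : ℝ) ^ (-1 - E.δ / 2) = (t : ℝ)⁻¹ * (t : ℝ) ^ (-E.δ / 2) := by
      rw [← Real.rpow_neg_one, ← Real.rpow_add ht0']
      congr 1; ring
    rw [e1, e3]
    ring
  rw [sum_congr rfl hterm]
  refine h6.trans ?_
  rw [hε]
  linarith

end Q236.CM
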