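import Pool.Agent.Q236.CM.Sy

/-!
# From the solved system to the completely multiplicative function
-/

set_option autoImplicit false

namespace Q236.CM

open Finset Filter Topology
open scoped Classical
open Pool.Agent.W76.MO
open Pool.Agent.W76.MO.Env (sc rough_mul)

variable (E : Env)

/-- the function, real valued -/
noncomputable def ffs (R j : ℕ) (z : ℕ × ℕ → ℝ) (n : ℕ) : ℝ :=
  if Rough R n then fzs E j z n else 0

theorem ffs_mul (R j : ℕ) (z : ℕ × ℕ → ℝ) {m n : ℕ} (hm : m ≠ 0) (hn : n ≠ 0) :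
    ffs E R j z (m * n) = ffs E R j z m * ffs E R j z n := by
  unfold ffs
  by_cases h1 : Rough R m
  · by_cases h2 : Rough R n
    · rw [if_pos ((rough_mul R m n).2 ⟨h1, h2⟩), if_pos h1, if_pos h2]
      exact LP_mul _ hm hn
    · rw [if_neg (fun h => h2 ((rough_mul R m n).1 h).2), if_neg h2, mul_zero]
  · rw [if_neg (fun h => h1 ((rough_mul R m n).1 h).1), if_neg h1, zero_mul]

theorem ffs_one (R j : ℕ) (z : ℕ × ℕ → ℝ) : ffs E R j z 1 = 1 := by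
  unfold ffs
  rw [if_pos]
  · exact LP_one _
  · intro p hp hd
    exact absurd (Nat.dvd_one.1 hd) hp.one_lt.ne'

/-- partial sums -/
noncomputable def SSs (R j : ℕ) (z : ℕ × ℕ → ℝ) (N : ℕ) : ℝ := ∑ n ∈ Icc 1 N, ffs E R j z n

theorem SSs_add (R j : ℕ) (z : ℕ × ℕ → ℝ) (M N : ℕ) (h : M ≤ N) :
    SSs E R j z N = SSs E R j z M + ∑ n ∈ Ioc M N, ffs E R j z n := by
  unfold SSs
  have h1 : Icc 1 N = Icc 1 M ∪ Ioc M N := by
    ext n
    simp only [mem_Icc, mem_union, mem_Ioc]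
    omega
  rw [h1, sum_union]
  rw [disjoint_left]
  intro n hn hn'
  rw [mem_Icc] at hn
  rw [mem_Ioc] at hn'
  omega

theorem sum_cell_s (R j i k : ℕ) (z : ℕ × ℕ → ℝ) :
    ∑ n ∈ cell E.δ i k, ffs E R j z n = ∑ n ∈ ra E R i k, fzs E j z n := by
  unfold ra ffs
  rw [sum_filter]

variable {E}

structure SolS (E : Env) (R j : ℕ) (z : ℕ × ℕ → ℝ) : Prop where
  z1 : ∀ x, |z x| ≤ 1
  R2 : 2 ≤ R
  j10 : 10 ≤ j
  key : KeyS E R j
  small : ∀ p : ℕ, p.Prime → E.g j p ≤ 1 / 4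
  first : ∑ n ∈ A0s R j, fzs E j z n = 0
  cells : ∀ i k : ℕ, j ≤ i → k < nc E.δ i → ∑ n ∈ ra E R i k, fzs E j z n = 0

theorem SolS.SS_first {R j : ℕ} {z : ℕ × ℕ → ℝ} (h : SolS E R j z) : SSs E R j z (2 ^ j) = 0 := by
  unfold SSs ffs
  rw [← sum_filter]
  exact h.first

theorem SolS.SS_cell {R j : ℕ} {z : ℕ × ℕ → ℝ} (h : SolS E R j z) (i : ℕ) (hi : j ≤ i)
    (h0 : SSs E R j z (2 ^ i) = 0) (k : ℕ) (hk : k ≤ nc E.δ i) :
    SSs E R j z (2 ^ i + k * hh E.δ i) = 0 := by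
  induction k with
  | zero => simpa using h0
  | succ k ih =>
    have h1 := ih (by omega)
    rw [SSs_add E R j z (2 ^ i + k * hh E.δ i) _ (by gcongr; omega), h1, zero_add]
    have h2 := sum_cell_s E R j i k z
    unfold cell at h2
    rw [h2]
    exact h.cells i k hi (by omega)

theorem SolS.SS_block {R j : ℕ} {z : ℕ × ℕ → ℝ} (h : SolS E R j z) (i : ℕ) (hi : j ≤ i) :
    SSs E R j z (2 ^ i) = 0 := by
  induction i, hi using Nat.le_induction with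
  | base => exact h.SS_first
  | succ i hi ih =>
    have h1 := h.SS_cell i hi ih (nc E.δ i) le_rfl
    rw [nc_mul E.δ E.hδ i] at h1
    rw [pow_succ, mul_two]
    exact h1

theorem SolS.ff_abs {R j : ℕ} {z : ℕ × ℕ → ℝ} (h : SolS E R j z) (i k : ℕ) (hi : j ≤ i)
    (hk : k < nc E.δ i) : ∑ n ∈ cell E.δ i k, |ffs E R j z n| ≤ 5 * E.w i := by
  have h1 : ∑ n ∈ cell E.δ i k, |ffs E R j z n| = ∑ n ∈ ra E R i k, |fzs E j z n| := by
    unfold ra ffs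
    rw [sum_filter]
    refine sum_congr rfl fun n _ => ?_
    split_ifs <;> simp
  rw [h1]
  refine le_trans (sum_le_sum fun n hn => ?_) (h.key.mass_cell i k hi hk)
  unfold ra at hn
  rw [mem_filter] at hn
  have h2 := (cell_loc E.δ E.hδ i k n hk hn.1).1
  have h3 : 0 < 2 ^ i := by positivity
  unfold massS
  by_cases hsq : Squarefree n
  · rw [if_pos hsq, fzs_sqf E j z hsq]
    exact (E.fz_bound j n z z 0 h.key.u0 h.z1 h.z1 (fun x => by simp) hsq).1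
  · rw [if_neg hsq]
    exact (fzs_bound E j n z z 0 h.key.u0 h.z1 h.z1 (fun x => by simp) (by omega)).1

theorem SolS.SS_le {R j : ℕ} {z : ℕ × ℕ → ℝ} (h : SolS E R j z) (N : ℕ) (hN : 2 ^ j < N) :
    |SSs E R j z N| ≤ 5 * E.w (sc N) ∧ j ≤ sc N ∧ N ≤ 2 ^ (sc N + 1) ∧ 2 ^ sc N < N := by
  have h2j : 0 < 2 ^ j := by positivity
  set i := sc N with hi
  have h1 : 2 ^ i ≤ N - 1 := by
    rw [hi]
    exact Nat.pow_log_le_self 2 (by omega)
  have h2 : N - 1 < 2 ^ (i + 1) := by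
    rw [hi]
    exact Nat.lt_pow_succ_log_self (by norm_num) (N - 1)
  have hji : j ≤ i := by
    by_contra hcon
    push Not at hcon
    have h3 : 2 ^ (i + 1) ≤ 2 ^ j := Nat.pow_le_pow_right (by norm_num) hcon
    have h4 := lt_of_lt_of_le h2 h3
    omega
  set k := (N - 1 - 2 ^ i) / hh E.δ i with hk
  have hpos := hh_pos E.δ i
  have h3 : k * hh E.δ i ≤ N - 1 - 2 ^ i := Nat.div_mul_le_self _ _
  have h4 : N - 1 - 2 ^ i < (k + 1) * hh E.δ i := by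
    have h5 : N - 1 - 2 ^ i < hh E.δ i * (k + 1) := by
      have := Nat.lt_mul_div_succ (N - 1 - 2 ^ i) hpos
      exact this
    rw [mul_comm]
    exact h5
  have hkn : k < nc E.δ i := by
    have h5 := nc_mul E.δ E.hδ i
    have h6 : k * hh E.δ i < nc E.δ i * hh E.δ i := by
      rw [h5]
      rw [pow_succ] at h2
      omega
    exact lt_of_mul_lt_mul_right h6 (Nat.zero_le _)
  have h0 := h.SS_cell i hji (h.SS_block i hji) k hkn.le
  refine ⟨?_, hji, by omega, by omega⟩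
  rw [SSs_add E R j z (2 ^ i + k * hh E.δ i) N (by omega), h0, zero_add]
  refine (abs_sum_le_sum_abs _ _).trans (le_trans ?_ (h.ff_abs i k hji hkn))
  apply sum_le_sum_of_subset_of_nonneg
  · intro n hn
    rw [mem_Ioc] at hn
    unfold cell
    rw [mem_Ioc]
    omega
  · intro n _ _
    exact abs_nonneg _

theorem SolS.bound {R j : ℕ} {z : ℕ × ℕ → ℝ} (h : SolS E R j z) : ∃ C : ℝ, 0 < C ∧
    ∀ N : ℕ, 1 ≤ N → |SSs E R j z N| ≤ C * (N : ℝ) ^ (-(1 / 2 : ℝ) - E.δ / 2) := by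
  set M : ℝ := ∑ n ∈ Icc 1 (2 ^ j), |ffs E R j z n| with hM
  have hM0 : 0 ≤ M := sum_nonneg fun _ _ => abs_nonneg _
  have hδ := E.hδ
  refine ⟨10 + M * ((2 ^ j : ℕ) : ℝ) ^ (1 / 2 + E.δ / 2), by positivity, fun N hN => ?_⟩
  have hN0 : (0 : ℝ) < N := by exact_mod_cast hN
  rcases Nat.lt_or_ge (2 ^ j) N with h1 | h1
  · obtain ⟨h2, h3, h4, _⟩ := h.SS_le N h1
    have h5 := E.w_le (sc N) N (by have := h.j10; omega) h4 hN
    have h6 : 0 < (N : ℝ) ^ (-(1 / 2 : ℝ) - E.δ / 2) := by positivity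
    have h7 : 0 ≤ M * ((2 ^ j : ℕ) : ℝ) ^ (1 / 2 + E.δ / 2) := by positivity
    nlinarith
  · have h2 : |SSs E R j z N| ≤ M := by
      unfold SSs
      refine (abs_sum_le_sum_abs _ _).trans ?_
      apply sum_le_sum_of_subset_of_nonneg
      · exact Icc_subset_Icc_right h1
      · intro n _ _
        exact abs_nonneg _
    have h3 : 1 ≤ ((2 ^ j : ℕ) : ℝ) ^ (1 / 2 + E.δ / 2) * (N : ℝ) ^ (-(1 / 2 : ℝ) - E.δ / 2) := by
      have h4 : (N : ℝ) ^ (1 / 2 + E.δ / 2) ≤ ((2 ^ j : ℕ) : ℝ) ^ (1 / 2 + E.δ / 2) := by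
        apply Real.rpow_le_rpow hN0.le (by exact_mod_cast h1)
        positivity
      have h5 : (N : ℝ) ^ (1 / 2 + E.δ / 2) * (N : ℝ) ^ (-(1 / 2 : ℝ) - E.δ / 2) = 1 := by
        rw [← Real.rpow_add hN0]
        have : (1 / 2 + E.δ / 2) + (-(1 / 2 : ℝ) - E.δ / 2) = 0 := by ring
        rw [this, Real.rpow_zero]
      have h6 : 0 ≤ (N : ℝ) ^ (-(1 / 2 : ℝ) - E.δ / 2) := by positivity
      have h7 := mul_le_mul_of_nonneg_right h4 h6
      rw [h5] at h7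
      exact h7
    have h6 : 0 < (N : ℝ) ^ (-(1 / 2 : ℝ) - E.δ / 2) := by positivity
    calc |SSs E R j z N| ≤ M * 1 := by rw [mul_one]; exact h2
      _ ≤ M * (((2 ^ j : ℕ) : ℝ) ^ (1 / 2 + E.δ / 2) * (N : ℝ) ^ (-(1 / 2 : ℝ) - E.δ / 2)) :=
          mul_le_mul_of_nonneg_left h3 hM0
      _ ≤ (10 + M * ((2 ^ j : ℕ) : ℝ) ^ (1 / 2 + E.δ / 2)) * (N : ℝ) ^ (-(1 / 2 : ℝ) - E.δ / 2) := by
          nlinarith


/-- the conclusion -/
def ConclS : Prop := ∃ (f : ℕ → ℝ) (c C : ℝ), 0 < c ∧ 0 < C ∧ f 1 = 1 ∧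
  (∀ m n : ℕ, m ≠ 0 → n ≠ 0 → f (m * n) = f m * f n) ∧
  ∀ N : ℕ, 1 ≤ N → |∑ n ∈ Icc 1 N, f n| ≤ C * (N : ℝ) ^ (-(1 / 2 : ℝ) - c)

theorem SolS.concl {R j : ℕ} {z : ℕ × ℕ → ℝ} (h : SolS E R j z) : ConclS := by
  obtain ⟨C, hC, hb⟩ := h.bound
  have hδ := E.hδ
  exact ⟨ffs E R j z, E.δ / 2, C, by positivity, hC, ffs_one E R j z,
    fun m n hm hn => ffs_mul E R j z hm hn, hb⟩

theorem env_conclS (E : Env) (hHC : E.HCount) (hGB : E.GBounds) (hPB : Env.PairB E.τ E.δ)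
    (hU : E.UPart) (hH : E.HPart) (hS : E.SPart) : ConclS := by
  obtain ⟨R, j, z, h1, h2, h3, h4, h5, h6, h7⟩ :=
    systemS E hGB hHC (keyS E hHC hGB hPB hU hH hS)
  exact (SolS.mk h1 h2 h3 h4 h5 h6 h7 : SolS E R j z).concl

end Q236.CM
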