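import Pool.Agent.Q236.CM.H1
import Pool.Agent.Q236.CM.ES
import Pool.Agent.W326.MO.HA3

/-!
# Numbers which are not squarefree: multiples of hosts
-/

set_option autoImplicit false

namespace Q236.CM

open Finset Filter Topology Pool.Agent.W76.MO
open scoped Classical
open Pool.Agent.W326.MO (mem_host host_lp E2_one Sa_le cell_bounds)

variable {E : Env}

/-- the value of the term of a divisible pair -/
theorem term_eq_s {j i' k' n₁ n : ℕ} (hgu : ∀ p, E.gu j p ≠ 0 → E.U j p)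
    (hgh : ∀ p, E.gh j p ≠ 0 → E.H j p) (hn₁ : n₁ ∈ E.Host j i' k') (hn : n ≠ 0)
    (hd : n₁ ∣ n) :
    ((n₁ : ℝ) / n) * E2s E j (n / lp n₁) = E2s E j (n / n₁) / ((n / n₁ : ℕ) : ℝ) := by
  obtain ⟨a, rfl⟩ := hd
  obtain ⟨hq, hqd⟩ := host_lp hn₁
  have h1 := mem_host hn₁
  obtain ⟨m, hm⟩ := hqd
  set q := lp n₁ with hqdef
  have hq0 : 0 < q := hq.pos
  have hsq : Squarefree n₁ := h1.2.2.2.1
  have hn₁0 : 0 < n₁ := Nat.pos_of_ne_zero hsq.ne_zero
  have ha0 : 0 < a := by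
    rcases Nat.eq_zero_or_pos a with h | h
    · rw [h, mul_zero] at hn; exact absurd rfl hn
    · exact h
  have hmq : n₁ / q = m := by
    rw [hm]; exact Nat.mul_div_cancel_left m hq0
  have hm0 : m ≠ 0 := by
    rintro rfl
    rw [mul_zero] at hm
    omega
  have e1 : n₁ * a / q = m * a := by
    rw [hm, mul_assoc]; exact Nat.mul_div_cancel_left _ hq0
  have e2 : n₁ * a / n₁ = a := Nat.mul_div_cancel_left _ hn₁0
  have hmsq : Squarefree m := hsq.squarefree_of_dvd ⟨q, by rw [hm]; ring⟩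
  rw [e1, e2, E2s_mul hm0 ha0.ne', E2s_sqf E j hmsq,
    E2_one hgu hgh (by rw [← hmq]; exact h1.2.2.2.2.2.2), one_mul]
  push_cast
  have : (n₁ : ℝ) ≠ 0 := by positivity
  have : (a : ℝ) ≠ 0 := by positivity
  field_simp

/-- the sum over the pairs with `n = a n₁` -/
theorem HTA_le {j R i k i' k' : ℕ} (hgu0 : ∀ p, 0 ≤ E.gu j p) (hgh0 : ∀ p, 0 ≤ E.gh j p)
    (hgu : ∀ p, E.gu j p ≠ 0 → E.U j p) (hgh : ∀ p, E.gh j p ≠ 0 → E.H j p)
    (hk : k < nc E.δ i) (hi' : 1 ≤ i') :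
    HTs E j R i k i' k' (fun a b => a ∣ b) ≤
      ∑ a ∈ (Icc 2 (2 ^ (i + 1))).filter (fun t => Rough R t),
        E2s E j a / a * (E.w i' / ((E.Host j i' k').card : ℝ) *
        (((E.Host j i' k').filter (fun n₁ => a * n₁ ∈ cell E.δ i k)).card : ℝ)) := by
  have hw := Pool.Agent.W326.MO.w_pos E hi'
  set c : ℝ := E.w i' / ((E.Host j i' k').card : ℝ) with hc
  have hc0 : 0 ≤ c := by rw [hc]; positivity
  set S : Finset (ℕ × ℕ) := ((E.Host j i' k') ×ˢ (ns E R i k)).filter (fun u : ℕ × ℕ =>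
      lp u.1 ∣ u.2 ∧ (2 : ℝ) ^ (1 / 20 * (i : ℝ)) < lp u.1 ∧ u.1 ∣ u.2) with hS
  have hSmem : ∀ u ∈ S, u.1 ∈ E.Host j i' k' ∧ u.2 ∈ cell E.δ i k ∧ ¬ Squarefree u.2 ∧
      Rough R u.2 ∧ u.1 ∣ u.2 ∧ 0 < u.2 := by
    intro u hu
    rw [hS, Finset.mem_filter, Finset.mem_product] at hu
    have h1 := hu.1.2
    unfold ns at h1
    rw [Finset.mem_filter] at h1
    exact ⟨hu.1.1, h1.1, h1.2.1, h1.2.2, hu.2.2.2,
      lt_of_le_of_lt (Nat.zero_le _) (cell_bounds hk h1.1).1⟩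
  have e0 : HTs E j R i k i' k' (fun a b => a ∣ b) =
      ∑ u ∈ S, c * (E2s E j (u.2 / u.1) / ((u.2 / u.1 : ℕ) : ℝ)) := by
    unfold HTs
    apply Finset.sum_congr
    · rw [hS]
      ext u
      simp only [Finset.mem_filter]
    intro u hu
    obtain ⟨h1, h2, h3, h4, h5, h6⟩ := hSmem u hu
    rw [← term_eq_s hgu hgh h1 h6.ne' h5, ← hc]; ring
  rw [e0]
  have hmaps : ∀ u ∈ S, u.2 / u.1 ∈ (Icc 2 (2 ^ (i + 1))).filter (fun t => Rough R t) := by
    intro u hu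
    obtain ⟨h1, h2, h3, h4, h5, h6⟩ := hSmem u hu
    obtain ⟨a, ha⟩ := h5
    have h10 : 0 < u.1 := by
      rcases Nat.eq_zero_or_pos u.1 with h | h
      · rw [h, zero_mul] at ha; omega
      · exact h
    have hq : u.2 / u.1 = a := by rw [ha]; exact Nat.mul_div_cancel_left _ h10
    have ha0 : a ≠ 0 := by
      intro h; rw [h, mul_zero] at ha; omega
    have ha1 : a ≠ 1 := by
      intro h; rw [h, mul_one] at ha
      exact h3 (ha ▸ (mem_host h1).2.2.2.1)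
    have hdvd : a ∣ u.2 := ⟨u.1, by rw [ha]; ring⟩
    rw [hq, Finset.mem_filter, Finset.mem_Icc]
    refine ⟨⟨by omega, ?_⟩, rough_div h4 hdvd⟩
    exact (Nat.le_of_dvd h6 hdvd).trans (cell_bounds hk h2).2
  rw [← Finset.sum_fiberwise_of_maps_to hmaps]
  apply Finset.sum_le_sum
  intro a ha
  have h1 : ∑ u ∈ S.filter (fun u => u.2 / u.1 = a),
      c * (E2s E j (u.2 / u.1) / ((u.2 / u.1 : ℕ) : ℝ)) =
      ((S.filter (fun u => u.2 / u.1 = a)).card : ℝ) * (c * (E2s E j a / a)) := by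
    rw [← nsmul_eq_mul, ← Finset.sum_const]
    apply Finset.sum_congr rfl
    intro u hu
    rw [Finset.mem_filter] at hu
    rw [hu.2]
  rw [h1]
  have h2 : (S.filter (fun u => u.2 / u.1 = a)).card ≤
      ((E.Host j i' k').filter (fun n₁ => a * n₁ ∈ cell E.δ i k)).card := by
    apply Finset.card_le_card_of_injOn (fun u => u.1)
    · intro u hu
      have hu' := Finset.mem_filter.mp (Finset.mem_coe.mp hu)
      obtain ⟨g1, g2, g3, g4, g5, g6⟩ := hSmem u hu'.1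
      refine Finset.mem_coe.mpr (Finset.mem_filter.mpr ⟨g1, ?_⟩)
      rw [← hu'.2, Nat.div_mul_cancel g5]
      exact g2
    · intro u hu v hv huv
      have hu' := Finset.mem_filter.mp (Finset.mem_coe.mp hu)
      have hv' := Finset.mem_filter.mp (Finset.mem_coe.mp hv)
      simp only at huv
      have g1 := (hSmem u hu'.1).2.2.2.2.1
      have g2 := (hSmem v hv'.1).2.2.2.2.1
      refine Prod.ext huv ?_
      rw [← Nat.div_mul_cancel g1, ← Nat.div_mul_cancel g2, hu'.2, hv'.2, huv]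
  have h3 : ((S.filter (fun u => u.2 / u.1 = a)).card : ℝ) ≤
      (((E.Host j i' k').filter (fun n₁ => a * n₁ ∈ cell E.δ i k)).card : ℝ) := by
    exact_mod_cast h2
  have hE : 0 ≤ E2s E j a / a := div_nonneg (E2s_nonneg hgu0 hgh0 a) (Nat.cast_nonneg _)
  calc _ ≤ (((E.Host j i' k').filter (fun n₁ => a * n₁ ∈ cell E.δ i k)).card : ℝ) *
        (c * (E2s E j a / a)) := mul_le_mul_of_nonneg_right h3 (mul_nonneg hc0 hE)
    _ = _ := by ring

theorem hpa (E : Env) (hHC : E.HCount) (hGB : E.GBounds) : ∃ R₀ : ℕ, ∀ R : ℕ, R₀ ≤ R →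
    ∃ J : ℕ, ∀ j : ℕ, J ≤ j → ∀ i k : ℕ, j ≤ i → k < nc E.δ i →
    ∑ i' ∈ (range (2 * i + 3)).filter (fun i' : ℕ => j ≤ i' ∧ (1 - E.τ) * i ≤ (i' : ℝ)),
      ∑ k' ∈ E.Bad i', HTs E j R i k i' k' (fun a b => a ∣ b) ≤ E.w i / 256 := by
  have hES := es E hGB
  obtain ⟨JH, hJH⟩ := hHC
  obtain ⟨JG, hJG1, hJG⟩ := hGB
  have hcH := E.hcH
  have hCB := E.hCB
  set K : ℝ := 2 ^ 45 * E.CB / E.cH with hK
  have hK0 : 0 < K := by rw [hK]; positivity
  obtain ⟨R₀, hR₀⟩ := hES (1 / (256 * K)) (by positivity)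
  refine ⟨R₀, fun R hR => ?_⟩
  obtain ⟨JE, hJE⟩ := hR₀ R hR
  refine ⟨JH + JG + JE + E.i₁ + 10, fun j hj i k hji hk => ?_⟩
  obtain ⟨-, hgu0, hgh0, hgu, hgh, -⟩ := hJG j (by omega)
  have hgh' : ∀ p, E.gh j p ≠ 0 → E.H j p := fun p hp => (hgh p hp).1
  have hES' := hJE j (by omega) (2 ^ (i + 1))
  set F := (range (2 * i + 3)).filter (fun i' : ℕ => j ≤ i' ∧ (1 - E.τ) * i ≤ (i' : ℝ)) with hF
  set A := (Icc 2 (2 ^ (i + 1))).filter (fun t => Rough R t) with hA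
  have hwi := Pool.Agent.W326.MO.w_pos E (i := i) (by omega)
  have hstep : ∑ i' ∈ F, ∑ k' ∈ E.Bad i', HTs E j R i k i' k' (fun a b => a ∣ b) ≤
      ∑ i' ∈ F, ∑ k' ∈ E.Bad i',
      ∑ a ∈ A, E2s E j a / a * (E.w i' / ((E.Host j i' k').card : ℝ) *
        (((E.Host j i' k').filter (fun n₁ => a * n₁ ∈ cell E.δ i k)).card : ℝ)) := by
    apply Finset.sum_le_sum
    intro i' hi'
    rw [hF, Finset.mem_filter] at hi'
    apply Finset.sum_le_sum
    intro k' hk'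
    exact HTA_le hgu0 hgh0 hgu hgh' hk (by omega)
  refine hstep.trans ?_
  have h2 : ∑ i' ∈ F, ∑ k' ∈ E.Bad i', ∑ a ∈ A, E2s E j a / a *
      (E.w i' / ((E.Host j i' k').card : ℝ) *
      (((E.Host j i' k').filter (fun n₁ => a * n₁ ∈ cell E.δ i k)).card : ℝ)) =
      ∑ a ∈ A, E2s E j a / a * ∑ i' ∈ F, ∑ k' ∈ E.Bad i',
      (E.w i' / ((E.Host j i' k').card : ℝ) *
      (((E.Host j i' k').filter (fun n₁ => a * n₁ ∈ cell E.δ i k)).card : ℝ)) := by
    have h3 : ∀ i' ∈ F, ∑ k' ∈ E.Bad i', ∑ a ∈ A, E2s E j a / a *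
      (E.w i' / ((E.Host j i' k').card : ℝ) *
      (((E.Host j i' k').filter (fun n₁ => a * n₁ ∈ cell E.δ i k)).card : ℝ)) =
      ∑ a ∈ A, ∑ k' ∈ E.Bad i', E2s E j a / a *
      (E.w i' / ((E.Host j i' k').card : ℝ) *
      (((E.Host j i' k').filter (fun n₁ => a * n₁ ∈ cell E.δ i k)).card : ℝ)) :=
      fun i' _ => Finset.sum_comm
    rw [Finset.sum_congr rfl h3, Finset.sum_comm]
    apply Finset.sum_congr rfl
    intro a _
    rw [Finset.mul_sum]
    apply Finset.sum_congr rfl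
    intro i' _
    rw [Finset.mul_sum]
  rw [h2]
  calc _ ≤ ∑ a ∈ A, E2s E j a / a * (K * E.w i * (a : ℝ) ^ (-E.δ / 2)) := by
        apply Finset.sum_le_sum
        intro a ha
        rw [hA, Finset.mem_filter, Finset.mem_Icc] at ha
        apply mul_le_mul_of_nonneg_left
        · exact Sa_le E hJH (by omega) (by omega) (by omega) hji hk (by omega)
        · exact div_nonneg (E2s_nonneg hgu0 hgh0 a) (Nat.cast_nonneg _)
    _ = K * E.w i * ∑ a ∈ A, E2s E j a / a * (a : ℝ) ^ (-E.δ / 2) := by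
        rw [Finset.mul_sum]
        apply Finset.sum_congr rfl
        intro a _
        ring
    _ ≤ K * E.w i * (1 / (256 * K)) := mul_le_mul_of_nonneg_left hES' (by positivity)
    _ = E.w i / 256 := by field_simp

end Q236.CM
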