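import Pool.Agent.Q236.CM.ES
import Pool.Agent.W596.MO.UP

/-!
# Numbers which are not squarefree: contribution of the large control primes of the first kind
-/

set_option autoImplicit false

namespace Q236.CM

open Finset Filter Topology
open scoped Classical
open Pool.Agent.W76.MO
open Pool.Agent.W596.MO (PS St_le)

theorem ups (E : Env) (hGB : E.GBounds) : ∃ R₀ : ℕ, ∀ R : ℕ, R₀ ≤ R → ∃ J : ℕ, ∀ j : ℕ, J ≤ j →
    ∀ i : ℕ, j ≤ i → ∀ k : ℕ, k < nc E.δ i →
    ∑ n ∈ ns E R i k, ∑ p ∈ n.primeFactors.filter (fun p : ℕ => (2 : ℝ) ^ (3 / 5 * (i : ℝ)) < p),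
      E.gu j p * (E2s E j (n / p) / ((n / p : ℕ) : ℝ)) ≤ E.w i / 256 := by
  have hES := es E hGB
  have hcU := E.hcU
  have hCU := E.hCU
  set C₀ : ℝ := 2 ^ 44 * E.CU / E.cU with hC₀
  have hC₀pos : 0 < C₀ := by positivity
  obtain ⟨R₀, hR₀⟩ := hES (1 / (256 * C₀)) (by positivity)
  obtain ⟨J₁, hJ₁⟩ := St_le E hGB
  obtain ⟨J₀, hJ₀1, hJ₀⟩ := hGB
  refine ⟨R₀, fun R hR => ?_⟩
  obtain ⟨J₂, hJ₂⟩ := hR₀ R hR
  refine ⟨J₀ + J₁ + J₂, fun j hj i hji k hk => ?_⟩
  obtain ⟨-, hgu, hgh, -⟩ := hJ₀ j (by omega)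
  have hES2 := hJ₂ j (by omega)
  have hw0 : 0 ≤ E.w i := by unfold Env.w; positivity
  have hE2' : ∀ t : ℕ, 0 ≤ E2s E j t / (t : ℝ) :=
    fun t => div_nonneg (E2s_nonneg hgu hgh t) (Nat.cast_nonneg t)
  set T : Finset ℕ := (Icc 2 (2 ^ (i + 1))).filter (fun t => Rough R t) with hT
  -- the double sum
  have hmain : ∑ n ∈ ns E R i k,
      ∑ p ∈ n.primeFactors.filter (fun p : ℕ => (2 : ℝ) ^ (3 / 5 * (i : ℝ)) < p),
        E.gu j p * (E2s E j (n / p) / ((n / p : ℕ) : ℝ)) ≤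
      ∑ t ∈ T, ∑ p ∈ PS E i k t, E.gu j p * (E2s E j t / (t : ℝ)) := by
    rw [Finset.sum_sigma', Finset.sum_sigma']
    set S1 := (ns E R i k).sigma (fun n : ℕ => n.primeFactors.filter
      (fun p : ℕ => (2 : ℝ) ^ (3 / 5 * (i : ℝ)) < p)) with hS1
    have hinj : Set.InjOn (fun x : (_ : ℕ) × ℕ => (⟨x.1 / x.2, x.2⟩ : (_ : ℕ) × ℕ)) S1 := by
      rintro ⟨n, p⟩ hx ⟨n', p'⟩ hy hxy
      rw [Finset.mem_coe, hS1, mem_sigma, mem_filter] at hx hy
      simp only [Sigma.mk.injEq, heq_eq_eq] at hxy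
      obtain ⟨h1, h2⟩ := hxy
      subst h2
      have d1 := Nat.dvd_of_mem_primeFactors hx.2.1
      have d2 := Nat.dvd_of_mem_primeFactors hy.2.1
      have : n = n' := by
        have := congrArg (fun z => z * p) h1
        rwa [Nat.div_mul_cancel d1, Nat.div_mul_cancel d2] at this
      rw [this]
    have himg : ∑ x ∈ S1, E.gu j x.2 * (E2s E j (x.1 / x.2) / ((x.1 / x.2 : ℕ) : ℝ)) =
        ∑ y ∈ S1.image (fun x : (_ : ℕ) × ℕ => (⟨x.1 / x.2, x.2⟩ : (_ : ℕ) × ℕ)),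
          E.gu j y.2 * (E2s E j y.1 / (y.1 : ℝ)) := by
      rw [Finset.sum_image hinj]
    rw [himg]
    apply Finset.sum_le_sum_of_subset_of_nonneg
    · intro y hy
      rw [mem_image] at hy
      obtain ⟨⟨n, p⟩, hx, rfl⟩ := hy
      rw [hS1, mem_sigma, mem_filter] at hx
      obtain ⟨hn, hp, hp2⟩ := hx
      simp only at hn hp hp2 ⊢
      unfold ns at hn
      rw [mem_filter] at hn
      obtain ⟨hnc, hsq, hro⟩ := hn
      have hpp := Nat.prime_of_mem_primeFactors hp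
      have hpd := Nat.dvd_of_mem_primeFactors hp
      have hmul : n / p * p = n := Nat.div_mul_cancel hpd
      have hnc' := hnc
      unfold cell at hnc'
      rw [mem_Ioc] at hnc'
      have h1 : nc E.δ i * hh E.δ i = 2 ^ i := nc_mul E.δ E.hδ i
      have h2 : (k + 1) * hh E.δ i ≤ nc E.δ i * hh E.δ i := Nat.mul_le_mul_right _ hk
      have h4 : 2 ^ (i + 1) = 2 * 2 ^ i := by ring
      have hn2 : n ≤ 2 ^ (i + 1) := by omega
      have hnpos : 0 < n := by omega
      have htpos : 0 < n / p := by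
        rcases Nat.eq_zero_or_pos (n / p) with h0 | h0
        · rw [h0] at hmul; omega
        · exact h0
      have htd : n / p ∣ n := Dvd.intro _ hmul
      have hne1 : n / p ≠ 1 := by
        intro h
        rw [h, one_mul] at hmul
        exact hsq (hmul ▸ hpp.squarefree)
      rw [mem_sigma]
      refine ⟨?_, ?_⟩
      · simp only
        rw [hT, mem_filter, mem_Icc]
        exact ⟨⟨by omega, le_trans (Nat.div_le_self _ _) hn2⟩, rough_div hro htd⟩
      · simp only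
        unfold PS
        rw [mem_filter, hmul, mem_range]
        exact ⟨by have := Nat.le_of_dvd hnpos hpd; omega, hp2, hnc⟩
    · rintro ⟨t, p⟩ _ _
      exact mul_nonneg (hgu p) (hE2' t)
  have hstep : ∀ t : ℕ, ∑ p ∈ PS E i k t, E.gu j p * (E2s E j t / (t : ℝ)) =
      (E2s E j t / (t : ℝ)) * ∑ p ∈ PS E i k t, E.gu j p := by
    intro t
    rw [Finset.mul_sum]
    apply Finset.sum_congr rfl
    intro p _
    ring
  simp only [hstep] at hmain
  refine hmain.trans ?_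
  calc ∑ t ∈ T, (E2s E j t / (t : ℝ)) * ∑ p ∈ PS E i k t, E.gu j p
      ≤ ∑ t ∈ T, (E2s E j t / (t : ℝ)) * (C₀ * E.w i * (t : ℝ) ^ (-E.δ / 2)) := by
        apply Finset.sum_le_sum
        intro t ht
        rw [hT, mem_filter, mem_Icc] at ht
        apply mul_le_mul_of_nonneg_left _ (hE2' t)
        exact hJ₁ j (by omega) i hji k hk t ht.1.1
    _ = C₀ * E.w i * ∑ t ∈ T, E2s E j t / t * (t : ℝ) ^ (-E.δ / 2) := by
        rw [Finset.mul_sum]
        apply Finset.sum_congr rfl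
        intro t _
        ring
    _ ≤ C₀ * E.w i * (1 / (256 * C₀)) := by
        apply mul_le_mul_of_nonneg_left (hES2 _) (by positivity)
    _ = E.w i / 256 := by
        field_simp

end Q236.CM
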