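import Pool.Agent.Q236.CM.Us
import Pool.Agent.Q236.CM.Fi
import Pool.Agent.Q236.CM.HX
import Pool.Agent.Q236.CM.HA
import Pool.Agent.Q236.CM.HB
import Pool.Agent.Q236.CM.H1
import Pool.Agent.Q236.CM.UP
import Pool.Agent.Q236.CM.ES
import Pool.Agent.W76.MO.Final

/-!
# Assembly
-/

set_option autoImplicit false

namespace Q236.CM

open Finset Filter Topology
open scoped Classical
open Pool.Agent.W76.MO

/-- few poor cells give a completely multiplicative function with small partial sums -/
theorem rare_concl : ∃ δ₁ : ℝ, 0 < δ₁ ∧ δ₁ ≤ 1 / 8 ∧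
    ∀ δ : ℝ, 0 < δ → δ ≤ δ₁ → RarePoorCells δ → ConclS := by
  have BTRh : BTR := Pool.Agent.W761.MO.btr
  have HOh : Hosts := Pool.Agent.W544.MO.main Pool.Agent.W761.MO.btr midRange
  obtain ⟨τ₀, γ₀, c, δ₀, hτ₀, hγ₀, hc, hδ₀, hhost⟩ := HOh
  set τ : ℝ := min (min τ₀ γ₀) (1 / 100) with hτd
  have hτ : 0 < τ := lt_min (lt_min hτ₀ hγ₀) (by norm_num)
  have hτ1 : τ ≤ 1 / 100 := min_le_right _ _
  refine ⟨min δ₀ (τ / 1000), lt_min hδ₀ (by positivity), (min_le_right _ _).trans (by linarith), ?_⟩
  intro δ hδ hδ0 hRare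
  have hδ1 : δ ≤ τ / 1000 := hδ0.trans (min_le_right _ _)
  obtain ⟨i₀, hi₀, hhost⟩ := hhost δ hδ (hδ0.trans (min_le_left _ _))
  obtain ⟨isU, CU, cU, i₁, hCU, hcU, hi₁, hup, huu, hub⟩ := us' BTRh τ δ hτ hτ1 hδ hδ1 hRare
  obtain ⟨CB, hCB, i₂, hi₂, hbtr⟩ := BTRh τ (τ / 4) hτ (by positivity)
  let E : Env :=
    { τ := τ, δ := δ, CU := CU, cU := cU, cH := c, CB := max CB 1, isU := isU
      i₁ := i₀ + i₁ + i₂
      hτ := hτ, hτ' := hτ1, hδ := hδ, hδ' := hδ1, hCU := hCU, hcU := hcU, hcH := hc
      hCB := le_max_right _ _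
      hi₁ := by omega
      u_prime := hup
      u_up := fun i hi => huu i (by omega)
      u_bad := fun i hi => hub i (by omega)
      host := by
        intro i hi k hk
        have hmul := nc_mul δ hδ i
        have hlt : (k + 1) * hh δ i ≤ nc δ i * hh δ i := Nat.mul_le_mul_right _ hk
        have h1 := hhost i (by omega) (2 ^ i + k * hh δ i) (by omega) (by
          rw [pow_succ]
          have : k * hh δ i ≤ (k + 1) * hh δ i := Nat.mul_le_mul_right _ (Nat.le_succ k)
          omega)
        refine h1.trans ?_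
        have hi0 : (0 : ℝ) ≤ i := Nat.cast_nonneg i
        have hsub : (Ioc (2 ^ i + k * hh δ i) (2 ^ i + k * hh δ i + hh δ i)).filter
            (HostNum τ₀ γ₀ i) ⊆ (cell δ i k).filter (HostNum τ τ i) := by
          intro n hn
          rw [mem_filter, mem_Ioc] at hn
          rw [mem_filter]
          refine ⟨?_, ?_⟩
          · unfold cell
            rw [mem_Ioc]
            have : (k + 1) * hh δ i = k * hh δ i + hh δ i := by ring
            omega
          · obtain ⟨m, q, h1, h2, h3, h4, h5, h6⟩ := hn.2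
            refine ⟨m, q, h1, h2, ?_, h4, h5, ?_⟩
            · refine le_trans (Real.rpow_le_rpow_of_exponent_le (by norm_num) ?_) h3
              have : τ ≤ τ₀ := (min_le_left _ _).trans (min_le_left _ _)
              apply mul_le_mul_of_nonneg_right _ hi0
              linarith
            · intro p hp hpm
              refine le_trans (Real.rpow_le_rpow_of_exponent_le (by norm_num) ?_) (h6 p hp hpm)
              have : τ ≤ γ₀ := (min_le_left _ _).trans (min_le_right _ _)
              exact mul_le_mul_of_nonneg_right this hi0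
        exact_mod_cast Finset.card_le_card hsub
      btr := by
        intro i hi a L hL
        refine (hbtr i (by omega) a L hL).trans ?_
        have hi0 : (0 : ℝ) < i := by
          have : 0 < i := by omega
          exact_mod_cast this
        gcongr
        exact le_max_left _ _ }
  have hHC := Pool.Agent.W501.MO.hc E
  have hGB := Pool.Agent.W683.MO.gb E hHC
  have hES := Pool.Agent.W280.MO.T_ES_proof E hGB
  have hUP := Pool.Agent.W596.MO.upart E hGB hES
  have hSP := Pool.Agent.W683.MO.sp E hGB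
  have hPB := Pool.Agent.W1.MO.pb τ δ hτ hτ1 hδ hδ1
  have hHP := Pool.Agent.W356.MO.HX E hGB (Pool.Agent.W640.MO.h1 E hHC hGB)
    (Pool.Agent.W326.MO.task_HA E hHC hGB hES) (Pool.Agent.W356.MO.HB E hHC hGB hPB)
  exact env_conclS E hHC hGB hPB hUP hHP hSP

/-- under the Riemann hypothesis there are few poor cells -/
theorem rare_of_RH (hRH : RiemannHypothesis) (δ : ℝ) (hδ : 0 < δ) (hδ' : δ < 1 / 4) :
    RarePoorCells δ := by
  have hFew : FewBad := Pool.Agent.W475.MO.fb
    (Pool.Agent.W726.MOBC.main Pool.Agent.W613.MO.za Pool.Agent.W475.MO.gi)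
    (Pool.Agent.W815.CL.cellLow Pool.Agent.W761.MO.btr)
  obtain ⟨c, hc, hF⟩ := hFew hRH
  obtain ⟨i₀, hi₀, hF⟩ := hF δ δ hδ hδ' hδ
  refine ⟨c, hc, i₀, fun i hi => ?_⟩
  have h := hF i hi
  have e1 : (2 * δ + δ) * (i : ℝ) = 3 * δ * i := by ring
  rw [e1] at h
  exact h

end Q236.CM
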