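import Pool.Agent.H307R2.LU
import Pool.Agent.Q236.CM.Mn
import Pool.Agent.Q236.CM.Qd

/-!
# Final forms of the conclusion
-/

set_option autoImplicit false

namespace Q236.CM

open Finset Filter Topology

/-- complex valued form of the conclusion -/
def ConclC : Prop := ∃ (f : ℕ → ℂ) (c C : ℝ), 0 < c ∧ 0 < C ∧ f 1 = 1 ∧
  (∀ m n : ℕ, 1 ≤ m → 1 ≤ n → f (m * n) = f m * f n) ∧
  ∀ N : ℕ, 1 ≤ N → ‖∑ n ∈ Icc 1 N, f n‖ ≤ C * (N : ℝ) ^ (-(1 / 2 : ℝ) - c)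

theorem ConclS.toC (h : ConclS) : ConclC := by
  obtain ⟨f, c, C, hc, hC, h1, hm, hb⟩ := h
  refine ⟨fun n => (f n : ℂ), c, C, hc, hC, by simp [h1], ?_, ?_⟩
  · intro m n hm' hn'
    have := hm m n (by omega) (by omega)
    show ((f (m * n) : ℝ) : ℂ) = (f m : ℂ) * (f n : ℂ)
    rw [this, Complex.ofReal_mul]
  · intro N hN
    have h2 := hb N hN
    have h3 : ∑ n ∈ Icc 1 N, ((f n : ℝ) : ℂ) = ((∑ n ∈ Icc 1 N, f n : ℝ) : ℂ) := by
      rw [Complex.ofReal_sum]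
    show ‖∑ n ∈ Icc 1 N, ((f n : ℝ) : ℂ)‖ ≤ _
    rw [h3, Complex.norm_real, Real.norm_eq_abs]
    exact h2

/-- a zero of a non-principal Dirichlet `L`-function to the right of `1/2` -/
theorem concl_char {q : ℕ} [NeZero q] {χ : DirichletCharacter ℂ q} (hχ : χ ≠ 1) {s : ℂ}
    (hs : 1 / 2 < s.re) (h0 : χ.LFunction s = 0) : ConclC := by
  have hs0 : 0 < s.re := by linarith
  have hq : (0 : ℝ) < q := by
    have := Nat.pos_of_ne_zero (NeZero.ne q)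
    exact_mod_cast this
  have hsn : 0 < ‖s‖ := by
    rw [norm_pos_iff]
    rintro rfl
    simp at hs0
  refine ⟨fun n => χ (n : ZMod q) * (n : ℂ) ^ (-s), s.re - 1 / 2, ‖s‖ * (q / s.re), by linarith,
    by positivity, ?_, ?_, ?_⟩
  · simp
  · intro m n hm hn
    show χ ((m * n : ℕ) : ZMod q) * ((m * n : ℕ) : ℂ) ^ (-s) =
      χ (m : ZMod q) * (m : ℂ) ^ (-s) * (χ (n : ZMod q) * (n : ℂ) ^ (-s))
    have h1 : ((m * n : ℕ) : ℂ) ^ (-s) = (m : ℂ) ^ (-s) * (n : ℂ) ^ (-s) := by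
      rw [Nat.cast_mul]
      exact Complex.natCast_mul_natCast_cpow m n (-s)
    rw [h1, Nat.cast_mul, map_mul]
    ring
  · intro N hN
    have h1 := Pool.Agent.H307R2.LFunction_eq hχ hN hs0
    rw [h0] at h1
    have h2 : ∑ n ∈ Icc 1 N, χ (n : ZMod q) * (n : ℂ) ^ (-s) =
        -(s * Pool.Agent.H307R2.TM N (Pool.Agent.H307R2.Ech χ N) s) := by
      linear_combination -h1
    show ‖∑ n ∈ Icc 1 N, χ (n : ZMod q) * (n : ℂ) ^ (-s)‖ ≤ _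
    rw [h2, norm_neg, norm_mul]
    have h3 := Pool.Agent.H307R2.TM_norm_le hN (Pool.Agent.H307R2.Ech_norm_le hχ N) hs0
    calc ‖s‖ * ‖Pool.Agent.H307R2.TM N (Pool.Agent.H307R2.Ech χ N) s‖ ≤
        ‖s‖ * (q * ((N : ℝ) ^ (-s.re) / s.re)) := mul_le_mul_of_nonneg_left h3 hsn.le
      _ = ‖s‖ * (q / s.re) * (N : ℝ) ^ (-(1 / 2 : ℝ) - (s.re - 1 / 2)) := by
          have e : -(1 / 2 : ℝ) - (s.re - 1 / 2) = -s.re := by ring
          rw [e]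
          ring

/-- the two criteria -/
theorem criteria : ∃ κ : ℝ, 0 < κ ∧ κ ≤ 1 / 32 ∧
    ((∀ s : ℂ, 1 / 2 + κ < s.re → riemannZeta s ≠ 0) → ConclS) ∧
    ∀ δ : ℝ, 0 < δ → δ ≤ 4 * κ → RarePoorCells δ → ConclS := by
  obtain ⟨δ₁, h1, h2, h3⟩ := rare_concl
  refine ⟨δ₁ / 4, by positivity, by linarith, ?_, ?_⟩
  · intro hQ
    exact h3 δ₁ h1 le_rfl (fbq (by positivity) h1 (by linarith) le_rfl hQ)
  · intro δ hδ hδ' hR
    exact h3 δ hδ (by linarith) hR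

end Q236.CM
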