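import Pool.Agent.Q236.CM.Ky

/-!
# The first block, all rough numbers
-/

set_option autoImplicit false

namespace Q236.CM

open Finset Filter Topology
open scoped Classical
open Pool.Agent.W76.MO
open Pool.Agent.W76.MO.Env (A0 harm_le)

/-- rough numbers up to `2^j` -/
noncomputable def A0s (R j : ℕ) : Finset ℕ := (Icc 1 (2 ^ j)).filter (fun n => Rough R n)

variable (E : Env)

theorem LP_congr (h h' : ℕ → ℝ) {n : ℕ} (hh : ∀ p : ℕ, p.Prime → p ∣ n → h p = h' p) :
    LP h n = LP h' n := by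
  unfold LP
  congr 1
  apply List.map_congr_left
  intro p hp
  exact hh p (Nat.prime_of_mem_primeFactorsList hp) (Nat.dvd_of_mem_primeFactorsList hp)

/-- the contribution of the host primes to the first block -/
theorem gh_sum (j : ℕ) (hh0 : ∀ q : ℕ, 0 ≤ E.gh j q)
    (hsum : ∀ P : Finset ℕ, ∑ q ∈ P, (q * E.gh j q) * (q : ℝ) ^ (-1 + E.τ / 4) ≤ 1 / j)
    (hjr : (1 : ℝ) ≤ j) (S : Finset ℕ) (hS : S ⊆ Icc 1 (2 ^ j)) :
    ∑ n ∈ S, ∑ p ∈ n.primeFactors, E.gh j p * (1 / ((n / p : ℕ) : ℝ)) ≤ 2 := by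
  have h1 : ∑ n ∈ S, ∑ p ∈ n.primeFactors, E.gh j p * (1 / ((n / p : ℕ) : ℝ)) ≤
      ∑ x ∈ (Icc (1 : ℕ) (2 ^ j)) ×ˢ (Icc (1 : ℕ) (2 ^ j)), E.gh j x.1 * (1 / (x.2 : ℝ)) := by
    rw [sum_sigma']
    have hi : Set.InjOn (fun x : (_ : ℕ) × ℕ => ((x.2, x.1 / x.2) : ℕ × ℕ))
        (((S).sigma fun n => n.primeFactors : Finset ((_ : ℕ) × ℕ)) : Set ((_ : ℕ) × ℕ)) := by
      rintro ⟨n, p⟩ hx ⟨n', p'⟩ hy hxy
      simp only [Finset.coe_sigma, Set.mem_sigma_iff, Finset.mem_coe] at hx hy
      simp only [Prod.mk.injEq] at hxy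
      obtain ⟨h1, h2⟩ := hxy
      subst h1
      have e1 := Nat.div_mul_cancel (Nat.dvd_of_mem_primeFactors hx.2)
      have e2 := Nat.div_mul_cancel (Nat.dvd_of_mem_primeFactors hy.2)
      have : n = n' := by rw [← e1, ← e2, h2]
      subst this
      rfl
    have e : ∑ x ∈ (S).sigma fun n => n.primeFactors,
          E.gh j x.2 * (1 / ((x.1 / x.2 : ℕ) : ℝ)) =
        ∑ y ∈ ((S).sigma fun n => n.primeFactors).image
          (fun x : (_ : ℕ) × ℕ => ((x.2, x.1 / x.2) : ℕ × ℕ)), E.gh j y.1 * (1 / (y.2 : ℝ)) := by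
      rw [sum_image hi]
    rw [e]
    refine sum_le_sum_of_subset_of_nonneg ?_ fun x _ _ => mul_nonneg (hh0 _) (by positivity)
    intro y hy
    rw [mem_image] at hy
    obtain ⟨⟨n, p⟩, hx, rfl⟩ := hy
    rw [mem_sigma] at hx
    obtain ⟨hn, hp⟩ := hx
    simp only at hn hp
    have hn := mem_Icc.1 (hS hn)
    have hpp := Nat.prime_of_mem_primeFactors hp
    have hpn := Nat.le_of_dvd hn.1 (Nat.dvd_of_mem_primeFactors hp)
    simp only [mem_product, mem_Icc]
    refine ⟨⟨hpp.one_le, hpn.trans hn.2⟩, ?_, (Nat.div_le_self _ _).trans hn.2⟩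
    exact Nat.div_pos hpn hpp.pos
  refine h1.trans ?_
  rw [sum_product]
  simp only
  have h2 : ∑ x ∈ Icc (1 : ℕ) (2 ^ j), ∑ y ∈ Icc (1 : ℕ) (2 ^ j), E.gh j x * (1 / (y : ℝ)) =
      (∑ x ∈ Icc (1 : ℕ) (2 ^ j), E.gh j x) * ∑ y ∈ Icc (1 : ℕ) (2 ^ j), 1 / (y : ℝ) := by
    rw [sum_mul_sum]
  rw [h2]
  have h3 : ∑ x ∈ Icc (1 : ℕ) (2 ^ j), E.gh j x ≤ 1 / j := by
    refine le_trans (sum_le_sum fun q hq => ?_) (hsum (Icc 1 (2 ^ j)))
    rw [mem_Icc] at hq
    have hq0 : (1 : ℝ) ≤ q := by exact_mod_cast hq.1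
    have h4 : (q : ℝ) * (q : ℝ) ^ (-1 + E.τ / 4) = (q : ℝ) ^ (E.τ / 4) := by
      nth_rewrite 1 [← Real.rpow_one (q : ℝ)]
      rw [← Real.rpow_add (by linarith)]
      congr 1
      ring
    have h5 : 1 ≤ (q : ℝ) ^ (E.τ / 4) := Real.one_le_rpow hq0 (by have := E.hτ; positivity)
    calc E.gh j q = E.gh j q * 1 := (mul_one _).symm
      _ ≤ E.gh j q * (q : ℝ) ^ (E.τ / 4) := mul_le_mul_of_nonneg_left h5 (hh0 q)
      _ = (q * E.gh j q) * (q : ℝ) ^ (-1 + E.τ / 4) := by rw [← h4]; ring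
  have h6 := harm_le j
  have h7 : 0 ≤ ∑ x ∈ Icc (1 : ℕ) (2 ^ j), E.gh j x := sum_nonneg fun x _ => hh0 x
  calc (∑ x ∈ Icc (1 : ℕ) (2 ^ j), E.gh j x) * ∑ y ∈ Icc (1 : ℕ) (2 ^ j), 1 / (y : ℝ)
      ≤ (1 / j) * (1 + j) := mul_le_mul h3 h6 (sum_nonneg fun _ _ => by positivity) (by positivity)
    _ = 1 / j + 1 := by field_simp
    _ ≤ 1 + 1 := by
        have : 1 / (j : ℝ) ≤ 1 := by rw [div_le_one (by linarith)]; exact hjr
        linarith
    _ = 2 := by norm_num

theorem first_s (hGB : E.GBounds) (R : ℕ) : ∃ J : ℕ, 1 ≤ J ∧ ∀ j : ℕ, J ≤ j →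
    (E.UB j).Nonempty ∧ (∀ p ∈ E.UB j, p.Prime) ∧
    ∑ n ∈ A0s R j, tauS E j n ≤ 8 * j + 8 * j / 4 := by
  obtain ⟨J, hJ, hGB⟩ := hGB
  refine ⟨J + 10, by omega, fun j hj => ?_⟩
  obtain ⟨hUB, hu0, hh0, hgu, hgh, _, hghq, hsum, _⟩ := hGB j (by omega)
  have hj1 : 1 ≤ j := by omega
  have hjr : (1 : ℝ) ≤ j := by exact_mod_cast hj1
  have hcU := E.hcU
  have hcard : 0 < ((E.UB j).card : ℝ) := lt_of_lt_of_le (by positivity) hUB
  have hUBp : ∀ p ∈ E.UB j, p.Prime := by
    intro p hp
    unfold Env.UB at hp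
    exact E.u_prime p (mem_filter.1 hp).2
  refine ⟨by exact Finset.card_pos.1 (by exact_mod_cast hcard), hUBp, ?_⟩
  -- every prime with a perturbation is large
  have hlarge : ∀ p : ℕ, E.g j p ≠ 0 → (2 : ℝ) ^ ((j : ℝ) / 2) ≤ p := by
    intro p hp
    by_cases h1 : E.gh j p = 0
    · have h2 : E.gu j p ≠ 0 := by
        intro h2
        apply hp
        unfold Env.g
        rw [h1, h2, add_zero]
      have h3 := (hgu p h2).2
      rcases Nat.lt_or_ge j 2 with hj2 | hj2
      · have hj' : j = 1 := by omega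
        have h4 := (E.u_prime p (hgu p h2).1).two_le
        rw [hj']
        have h5 : (2 : ℝ) ^ (((1 : ℕ) : ℝ) / 2) ≤ (2 : ℝ) ^ (1 : ℝ) :=
          Real.rpow_le_rpow_of_exponent_le (by norm_num) (by norm_num)
        rw [Real.rpow_one] at h5
        have h6 : (2 : ℝ) ≤ p := by exact_mod_cast h4
        linarith
      · have h4 : (2 : ℝ) ^ ((j : ℝ) / 2) ≤ (2 : ℝ) ^ (((j - 1 : ℕ) : ℝ)) := by
          apply Real.rpow_le_rpow_of_exponent_le (by norm_num)
          rw [Nat.cast_sub hj1]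
          have : (2 : ℝ) ≤ j := by exact_mod_cast hj2
          push_cast
          linarith
        rw [Real.rpow_natCast] at h4
        have h5 : ((2 ^ (j - 1) : ℕ) : ℝ) < p := by exact_mod_cast h3
        push_cast at h5
        linarith
    · exact (hghq p h1).1
  have hinj : ∀ p q : ℕ, E.g j p ≠ 0 → E.g j q ≠ 0 → p ≠ q → 2 ^ j < p * q := by
    intro p q hp hq hne
    have h1 := hlarge p hp
    have h2 := hlarge q hq
    have h3 : (2 : ℝ) ^ ((j : ℝ) / 2) * (2 : ℝ) ^ ((j : ℝ) / 2) = ((2 ^ j : ℕ) : ℝ) := by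
      rw [← Real.rpow_add (by norm_num)]
      push_cast
      rw [← Real.rpow_natCast]
      congr 1
      ring
    have h4 : (0 : ℝ) < (2 : ℝ) ^ ((j : ℝ) / 2) := by positivity
    rcases lt_or_gt_of_ne hne with h | h
    · have h5 : (p : ℝ) < q := by exact_mod_cast h
      have h6 : ((2 ^ j : ℕ) : ℝ) < ((p * q : ℕ) : ℝ) := by
        rw [← h3]; push_cast; nlinarith
      exact_mod_cast h6
    · have h5 : (q : ℝ) < p := by exact_mod_cast h
      have h6 : ((2 ^ j : ℕ) : ℝ) < ((p * q : ℕ) : ℝ) := by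
        rw [← h3]; push_cast; nlinarith
      exact_mod_cast h6
  -- tau for n in A0
  have htau : ∀ n ∈ A0 R j, E.tau j n = ∑ p ∈ n.primeFactors, E.g j p * (1 / ((n / p : ℕ) : ℝ)) := by
    intro n hn
    unfold A0 at hn
    rw [mem_filter, mem_Icc] at hn
    obtain ⟨⟨hn1, hn2⟩, hsq, _⟩ := hn
    have h1 := sum_scale n hsq (E.g j)
    unfold Env.tau
    rw [← h1]
    refine sum_congr rfl fun p hp => ?_
    by_cases hg : E.g j p = 0
    · rw [hg, zero_mul, zero_mul]
    congr 1
    have hpp := Nat.prime_of_mem_primeFactors hp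
    have hpn := Nat.dvd_of_mem_primeFactors hp
    have hsq' : Squarefree (n / p) := hsq.squarefree_of_dvd (Nat.div_dvd_of_dvd hpn)
    rw [← primeFactors_div n p hsq hp, prod_scale (n / p) hsq']
    have h3 : ∏ q ∈ (n / p).primeFactors, (1 + q * E.g j q) = 1 := by
      refine prod_eq_one fun q hq => ?_
      have hg2 : E.g j q = 0 := by
        by_contra hg2
        rw [primeFactors_div n p hsq hp, mem_erase] at hq
        have hqp := Nat.prime_of_mem_primeFactors hq.2
        have hqn := Nat.dvd_of_mem_primeFactors hq.2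
        have hcop : Nat.Coprime q p := (Nat.coprime_primes hqp hpp).2 hq.1
        have hdvd : q * p ∣ n := hcop.mul_dvd_of_dvd_of_dvd hqn hpn
        have := Nat.le_of_dvd hn1 hdvd
        have := hinj q p hg2 hg hq.1
        omega
      rw [hg2, mul_zero, add_zero]
    rw [h3, mul_one]
  have hsplit : ∑ n ∈ A0 R j, E.tau j n =
      ∑ n ∈ A0 R j, ∑ p ∈ n.primeFactors, E.gu j p * (1 / ((n / p : ℕ) : ℝ)) +
      ∑ n ∈ A0 R j, ∑ p ∈ n.primeFactors, E.gh j p * (1 / ((n / p : ℕ) : ℝ)) := by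
    rw [← sum_add_distrib]
    refine sum_congr rfl fun n hn => ?_
    rw [htau n hn, ← sum_add_distrib]
    refine sum_congr rfl fun p _ => ?_
    unfold Env.g
    ring
  -- first part
  have hp1 : ∑ n ∈ A0 R j, ∑ p ∈ n.primeFactors, E.gu j p * (1 / ((n / p : ℕ) : ℝ)) ≤ 8 * j := by
    have h1 : ∀ n ∈ A0 R j, ∑ p ∈ n.primeFactors, E.gu j p * (1 / ((n / p : ℕ) : ℝ)) =
        if n ∈ E.UB j then 8 * j / ((E.UB j).card : ℝ) else 0 := by
      intro n hn
      unfold A0 at hn
      rw [mem_filter, mem_Icc] at hn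
      obtain ⟨⟨hn1, hn2⟩, hsq, _⟩ := hn
      have hkey : ∀ p ∈ n.primeFactors, E.gu j p ≠ 0 → p = n ∧ n ∈ E.UB j := by
        intro p hp hg
        have hpn := Nat.dvd_of_mem_primeFactors hp
        obtain ⟨hU, hlt⟩ := hgu p hg
        obtain ⟨m, rfl⟩ := hpn
        have hjj : 2 ^ j = 2 * 2 ^ (j - 1) := by
          rw [← pow_succ']
          congr 1
          omega
        have hm : m = 1 := by
          have hm0 : m ≠ 0 := by rintro rfl; omega
          by_contra hm1
          have : 2 ≤ m := by omega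
          nlinarith
        subst hm
        rw [mul_one] at hn2 ⊢
        exact ⟨rfl, by unfold Env.UB; exact mem_filter.2 ⟨mem_Ioc.2 ⟨hlt, hn2⟩, hU⟩⟩
      split_ifs with hmem
      · have hnp := hUBp n hmem
        rw [hnp.primeFactors, sum_singleton, Nat.div_self hnp.pos]
        have hgun : E.gu j n = 8 * j / ((E.UB j).card : ℝ) := by
          have hmem' := hmem
          unfold Env.UB at hmem'
          rw [mem_filter, mem_Ioc] at hmem'
          unfold Env.gu
          rw [if_pos ⟨hmem'.2, hmem'.1.1⟩, if_pos hmem'.1.2]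
        rw [hgun]
        simp
      · refine sum_eq_zero fun p hp => ?_
        by_cases hg : E.gu j p = 0
        · rw [hg, zero_mul]
        · exact absurd (hkey p hp hg).2 hmem
    rw [sum_congr rfl h1, ← sum_filter, sum_const, nsmul_eq_mul]
    have h2 : (((A0 R j).filter (fun n => n ∈ E.UB j)).card : ℝ) ≤ ((E.UB j).card : ℝ) := by
      exact_mod_cast Finset.card_le_card (fun n hn => (mem_filter.1 hn).2)
    calc (((A0 R j).filter (fun n => n ∈ E.UB j)).card : ℝ) * (8 * j / ((E.UB j).card : ℝ))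
        ≤ ((E.UB j).card : ℝ) * (8 * j / ((E.UB j).card : ℝ)) :=
          mul_le_mul_of_nonneg_right h2 (by positivity)
      _ = 8 * j := by field_simp
  -- second part
  have hA0sub : A0 R j ⊆ Icc 1 (2 ^ j) := filter_subset _ _
  have hp2 := gh_sum E j hh0 hsum hjr (A0 R j) hA0sub
  have hsqf : ∑ n ∈ A0 R j, E.tau j n ≤ 8 * j + 2 := by
    rw [hsplit]
    linarith
  -- numbers which are not squarefree
  set N : Finset ℕ := (Icc 1 (2 ^ j)).filter (fun n => ¬ Squarefree n ∧ Rough R n) with hN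
  have hNpt : ∀ n ∈ N, E2s E j n / n ≤ 1 / (n : ℝ) +
      2 * ∑ p ∈ n.primeFactors, E.gh j p * (1 / ((n / p : ℕ) : ℝ)) := by
    intro n hn
    rw [hN, mem_filter, mem_Icc] at hn
    obtain ⟨⟨hn1, hn2⟩, hnsq, _⟩ := hn
    have hn0 : n ≠ 0 := by omega
    have hnR : (0 : ℝ) < n := by exact_mod_cast hn1
    have hnn : 0 ≤ ∑ p ∈ n.primeFactors, E.gh j p * (1 / ((n / p : ℕ) : ℝ)) :=
      sum_nonneg fun p _ => mul_nonneg (hh0 p) (by positivity)
    have hone : ∀ t : ℕ, t ≠ 0 → (∀ p : ℕ, p.Prime → p ∣ t → E.g j p = 0) → E2s E j t = 1 := by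
      intro t ht h
      have h1 : LP (fun _ => (1 : ℝ)) t = 1 := by unfold LP; simp
      refine Eq.trans ?_ h1
      refine LP_congr _ _ fun p hp hpt => ?_
      rw [h p hp hpt, mul_zero, mul_zero, add_zero]
    by_cases hex : ∃ q ∈ n.primeFactors, E.g j q ≠ 0
    · obtain ⟨q, hq, hgq⟩ := hex
      have hqp := Nat.prime_of_mem_primeFactors hq
      have hqn := Nat.dvd_of_mem_primeFactors hq
      have hmul : q * (n / q) = n := Nat.mul_div_cancel' hqn
      have ht0 : n / q ≠ 0 := by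
        intro h
        rw [h, mul_zero] at hmul
        omega
      have ht1 : n / q ≠ 1 := by
        intro h
        rw [h, mul_one] at hmul
        exact hnsq (hmul ▸ hqp.squarefree)
      have hfree : ∀ p : ℕ, p.Prime → p ∣ n / q → E.g j p = 0 := by
        intro p hp hpt
        by_contra hgp
        by_cases hpq : p = q
        · subst hpq
          obtain ⟨t, ht⟩ := hpt
          have h1 : p * p * t = n := by rw [mul_assoc, ← ht, hmul]
          have ht0' : 0 < t := by
            rcases Nat.eq_zero_or_pos t with h | h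
            · rw [h, mul_zero] at h1; omega
            · exact h
          have h2 : p * p ≤ n := by
            calc p * p = p * p * 1 := (mul_one _).symm
              _ ≤ p * p * t := Nat.mul_le_mul_left _ ht0'
              _ = n := h1
          have h3 := hlarge p hgp
          have h4 : (2 : ℝ) ^ ((j : ℝ) / 2) * (2 : ℝ) ^ ((j : ℝ) / 2) = ((2 ^ j : ℕ) : ℝ) := by
            rw [← Real.rpow_add (by norm_num)]
            push_cast
            rw [← Real.rpow_natCast]
            congr 1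
            ring
          have h5 : ((2 ^ j : ℕ) : ℝ) ≤ ((p * p : ℕ) : ℝ) := by
            rw [← h4]
            push_cast
            exact mul_le_mul h3 h3 (by positivity) (Nat.cast_nonneg _)
          have h6 : 2 ^ j ≤ p * p := by exact_mod_cast h5
          have h7 : p * p = 2 ^ j := by omega
          have h8 : p ∣ 2 ^ j := ⟨p, h7.symm⟩
          have h9 : p = 2 := (Nat.prime_dvd_prime_iff_eq hp Nat.prime_two).1 (hp.dvd_of_dvd_pow h8)
          rw [h9] at h7
          have h10 : 2 ^ 3 ≤ 2 ^ j := Nat.pow_le_pow_right (by norm_num) (by omega)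
          omega
        · have h1 := hinj p q hgp hgq hpq
          have h2 : p * q ∣ n := by
            rw [← hmul, mul_comm p q]
            exact Nat.mul_dvd_mul_left q hpt
          have := Nat.le_of_dvd hn1 h2
          omega
      have hgu0 : E.gu j q = 0 := by
        by_contra h
        have h1 := (hgu q h).2
        have h2 : 2 ≤ n / q := by
          rcases Nat.lt_or_ge (n / q) 2 with h4 | h4
          · interval_cases hnq : n / q
            · exact absurd rfl ht0
            · exact absurd rfl ht1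
          · exact h4
        have h3 : q * 2 ≤ q * (n / q) := Nat.mul_le_mul_left _ h2
        have hjj : 2 ^ j = 2 * 2 ^ (j - 1) := by
          rw [← pow_succ']
          congr 1
          omega
        omega
      have hE : E2s E j n = 1 + 2 * (q * E.gh j q) := by
        have h1 : E2s E j n = E2s E j (q * (n / q)) := by rw [hmul]
        rw [h1, E2s_mul hqp.ne_zero ht0, hone _ ht0 hfree, mul_one]
        unfold E2s
        rw [LP_prime _ hqp]
        unfold Env.g
        rw [hgu0, zero_add]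
      have hq0 : (q : ℝ) ≠ 0 := by exact_mod_cast hqp.ne_zero
      have h1 : E.gh j q * (1 / ((n / q : ℕ) : ℝ)) ≤
          ∑ p ∈ n.primeFactors, E.gh j p * (1 / ((n / p : ℕ) : ℝ)) :=
        single_le_sum (f := fun p : ℕ => E.gh j p * (1 / ((n / p : ℕ) : ℝ)))
          (fun p _ => mul_nonneg (hh0 p) (by positivity)) hq
      have h2 : E2s E j n / n = 1 / (n : ℝ) + 2 * (E.gh j q * (1 / ((n / q : ℕ) : ℝ))) := by
        rw [hE, cast_div_prime n q hq]
        field_simp
      rw [h2]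
      linarith
    · push Not at hex
      rw [hone n hn0 (fun p hp hpn => hex p (Nat.mem_primeFactors.2 ⟨hp, hpn, hn0⟩))]
      linarith
  have hNsum : ∑ n ∈ N, E2s E j n / n ≤ (1 + j) + 2 * 2 := by
    refine (sum_le_sum hNpt).trans ?_
    rw [sum_add_distrib, ← mul_sum]
    have h1 : ∑ n ∈ N, 1 / (n : ℝ) ≤ 1 + j := by
      refine le_trans (sum_le_sum_of_subset_of_nonneg (filter_subset _ _) ?_) (harm_le j)
      intro n _ _
      positivity
    have h2 := gh_sum E j hh0 hsum hjr N (filter_subset _ _)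
    linarith
  have hall : ∑ n ∈ A0s R j, tauS E j n = ∑ n ∈ A0 R j, E.tau j n + ∑ n ∈ N, E2s E j n / n := by
    rw [← Finset.sum_filter_add_sum_filter_not (A0s R j) Squarefree]
    congr 1
    · have h : (A0s R j).filter Squarefree = A0 R j := by
        unfold A0s A0
        ext n
        simp only [mem_filter]
        tauto
      rw [h]
      refine sum_congr rfl fun n hn => ?_
      unfold A0 at hn
      unfold tauS
      rw [if_pos (mem_filter.1 hn).2.1]
    · have h : (A0s R j).filter (fun n => ¬ Squarefree n) = N := by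
        rw [hN]
        unfold A0s
        ext n
        simp only [mem_filter]
        tauto
      rw [h]
      refine sum_congr rfl fun n hn => ?_
      rw [hN] at hn
      unfold tauS
      rw [if_neg (mem_filter.1 hn).2.1]
  rw [hall]
  have hj10 : (10 : ℝ) ≤ j := by exact_mod_cast (by omega : 10 ≤ j)
  linarith

end Q236.CM
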