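import Pool.Agent.Q236.CM.NS

/-!
# The completely multiplicative perturbed function
-/

set_option autoImplicit false

namespace Q236.CM

open Finset Filter Topology
open scoped Classical
open Pool.Agent.W76.MO

/-- perturbation of a completely multiplicative function -/
theorem LP_perturb (x g g' G : ℕ → ℝ) (ε : ℝ) (hx : ∀ p, 0 ≤ x p)
    (hε : 0 ≤ ε) (hg : ∀ p, |g p| ≤ G p) (hg' : ∀ p, |g' p| ≤ G p)
    (hgg : ∀ p, |g p - g' p| ≤ ε * G p) {n : ℕ} (hn : n ≠ 0) :
    |LP (fun p => g p - x p) n| ≤ LP (fun p => x p + G p) n ∧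
    ∃ T : ℝ, 0 ≤ T ∧ |LP (fun p => g p - x p) n - LP (fun p => g' p - x p) n| ≤ ε * T ∧
      LP (fun p => x p + G p) n + T ≤ LP (fun p => x p + 2 * G p) n := by
  have hG : ∀ p, 0 ≤ G p := fun p => (abs_nonneg _).trans (hg p)
  have hb : ∀ p, |g p - x p| ≤ x p + G p := fun p => by
    have h1 := abs_sub (g p) (x p)
    rw [abs_of_nonneg (hx p)] at h1
    linarith [hg p]
  have hb' : ∀ p, |g' p - x p| ≤ x p + G p := fun p => by
    have h1 := abs_sub (g' p) (x p)
    rw [abs_of_nonneg (hx p)] at h1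
    linarith [hg' p]
  induction n using induction_on_primes with
  | zero => exact absurd rfl hn
  | one =>
    simp only [LP_one]
    exact ⟨by norm_num, 0, le_rfl, by norm_num, by norm_num⟩
  | prime_mul p a hp ih =>
    have ha : a ≠ 0 := by rintro rfl; simp at hn
    obtain ⟨h1, T, hT0, h2, h3⟩ := ih ha
    simp only [LP_mul _ hp.ne_zero ha, LP_prime _ hp]
    set A := LP (fun p => g p - x p) a with hA
    set A' := LP (fun p => g' p - x p) a with hA'
    set B := LP (fun p => x p + G p) a with hB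
    set C := LP (fun p => x p + 2 * G p) a with hC
    have hB0 : 0 ≤ B := (abs_nonneg _).trans h1
    have hxa : 0 ≤ x p + G p := add_nonneg (hx p) (hG p)
    refine ⟨?_, G p * B + (x p + G p) * T, ?_, ?_, ?_⟩
    · rw [abs_mul]
      exact mul_le_mul (hb p) h1 (abs_nonneg _) hxa
    · have := mul_nonneg (hG p) hB0
      have := mul_nonneg hxa hT0
      linarith
    · have e : (g p - x p) * A - (g' p - x p) * A' =
          (g p - g' p) * A + (g' p - x p) * (A - A') := by ring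
      rw [e]
      refine (abs_add_le _ _).trans ?_
      rw [abs_mul, abs_mul]
      have t1 : |g p - g' p| * |A| ≤ (ε * G p) * B :=
        mul_le_mul (hgg p) h1 (abs_nonneg _) (mul_nonneg hε (hG p))
      have t2 : |g' p - x p| * |A - A'| ≤ (x p + G p) * (ε * T) :=
        mul_le_mul (hb' p) h2 (abs_nonneg _) hxa
      calc |g p - g' p| * |A| + |g' p - x p| * |A - A'|
          ≤ (ε * G p) * B + (x p + G p) * (ε * T) := add_le_add t1 t2
        _ = ε * (G p * B + (x p + G p) * T) := by ring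
    · have h4 : 0 ≤ G p * T := mul_nonneg (hG p) hT0
      have h5 : 0 ≤ x p + 2 * G p := by linarith [hG p, hx p]
      have h6 : (x p + 2 * G p) * (B + T) ≤ (x p + 2 * G p) * C :=
        mul_le_mul_of_nonneg_left h3 h5
      nlinarith

theorem LP_abs (h : ℕ → ℝ) {n : ℕ} (hn : n ≠ 0) : |LP h n| = LP (fun p => |h p|) n := by
  induction n using induction_on_primes with
  | zero => exact absurd rfl hn
  | one => rw [LP_one, LP_one, abs_one]
  | prime_mul p a hp ih =>
    have ha : a ≠ 0 := by rintro rfl; simp at hn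
    rw [LP_mul _ hp.ne_zero ha, LP_mul _ hp.ne_zero ha, LP_prime _ hp, LP_prime _ hp, abs_mul,
      ih ha]

variable (E : Env)

/-- the function -/
noncomputable def fzs (j : ℕ) (z : ℕ × ℕ → ℝ) (n : ℕ) : ℝ :=
  LP (fun p => E.gz j z p - 1 / (p : ℝ)) n

theorem fzs_sqf (j : ℕ) (z : ℕ × ℕ → ℝ) {n : ℕ} (hn : Squarefree n) :
    fzs E j z n = E.fz j z n := by
  unfold fzs Env.fz
  exact LP_sqf _ hn

theorem LP_inv {n : ℕ} (hn : n ≠ 0) : LP (fun p => 1 / (p : ℝ)) n = 1 / (n : ℝ) := by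
  have h := LP_pow (-1) hn
  rw [Real.rpow_neg_one, ← one_div] at h
  rw [← h]
  congr 1
  funext p
  rw [Real.rpow_neg_one, one_div]

theorem LP_scale (j : ℕ) {n : ℕ} (hn : n ≠ 0) :
    LP (fun p => 1 / (p : ℝ) + 2 * E.g j p) n = E2s E j n / n := by
  have h1 : E2s E j n / n = LP (fun p => 1 / (p : ℝ) * (1 + 2 * (p * E.g j p))) n := by
    rw [LP_mul_fun (fun p => 1 / (p : ℝ)) (fun p => 1 + 2 * (p * E.g j p)), LP_inv hn]
    unfold E2s
    ring
  rw [h1]
  have h0 : ∀ p : ℕ, p.Prime → p ∣ n → (1 / (p : ℝ) + 2 * E.g j p) =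
      1 / (p : ℝ) * (1 + 2 * (p * E.g j p)) := by
    intro p hp _
    have : (p : ℝ) ≠ 0 := by exact_mod_cast hp.ne_zero
    field_simp
  unfold LP
  congr 1
  apply List.map_congr_left
  intro p hp
  exact h0 p (Nat.prime_of_mem_primeFactorsList hp) (Nat.dvd_of_mem_primeFactorsList hp)

theorem fzs_bound (j n : ℕ) (z z' : ℕ × ℕ → ℝ) (ε : ℝ) (hu : ∀ p, 0 ≤ E.gu j p)
    (hz : ∀ i, |z i| ≤ 1) (hz' : ∀ i, |z' i| ≤ 1)
    (hzz : ∀ i, |z i - z' i| ≤ ε) (hn : n ≠ 0) :
    |fzs E j z n| ≤ E2s E j n / n ∧ |fzs E j z n - fzs E j z' n| ≤ ε * (E2s E j n / n) := by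
  have hε : 0 ≤ ε := (abs_nonneg _).trans (hzz (0, 0))
  have hg1 : ∀ p, |E.gz j z p| ≤ E.g j p :=
    fun p => (E.gz_le j z 1 hz hu p).trans (le_of_eq (one_mul _))
  have hG0 : ∀ p, 0 ≤ E.g j p := fun p => (abs_nonneg _).trans (hg1 p)
  obtain ⟨h1, T, hT0, h2, h3⟩ := LP_perturb (fun p => 1 / (p : ℝ)) (E.gz j z) (E.gz j z') (E.g j) ε
    (fun p => by positivity) hε hg1
    (fun p => (E.gz_le j z' 1 hz' hu p).trans (le_of_eq (one_mul _)))
    (fun p => by rw [Env.gz_sub]; exact E.gz_le j _ ε hzz hu p) hn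
  rw [LP_scale E j hn] at h3
  have hB0 : 0 ≤ LP (fun p => 1 / (p : ℝ) + E.g j p) n := (abs_nonneg _).trans h1
  refine ⟨h1.trans (by linarith), h2.trans (mul_le_mul_of_nonneg_left (by linarith) hε)⟩

theorem fzs_zero (j n : ℕ) (hu : ∀ p, 0 ≤ E.gu j p) (hn : n ≠ 0) :
    |fzs E j 0 n| = 1 / (n : ℝ) := by
  have h0 : ∀ p, E.gz j 0 p = 0 := fun p => by
    have := E.gz_le j 0 0 (fun i => by simp) hu p
    rw [zero_mul] at this
    exact abs_eq_zero.1 (le_antisymm this (abs_nonneg _))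
  rw [← LP_inv hn]
  unfold fzs
  rw [LP_abs _ hn]
  congr 1
  funext p
  rw [h0, zero_sub, abs_neg, abs_of_nonneg (by positivity)]

end Q236.CM
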