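import Pool.Agent.Q236.CM.Fs

/-!
# The key inequality for the cells, all rough numbers
-/

set_option autoImplicit false

namespace Q236.CM

open Finset Filter Topology
open scoped Classical
open Pool.Agent.W76.MO

variable (E : Env)

/-- the key inequality for the squarefree numbers of the cells -/
structure KeyT (R j : ℕ) : Prop where
  u0 : ∀ p, 0 ≤ E.gu j p
  h0 : ∀ p, 0 ≤ E.gh j p
  tau_cell : ∀ i k : ℕ, j ≤ i → k < nc E.δ i →
    ∑ n ∈ E.cs R i k, E.tau j n ≤ E.w i + 3 * (E.w i / 16)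
  mass_cell : ∀ i k : ℕ, j ≤ i → k < nc E.δ i → ∑ n ∈ E.cs R i k, E.mass j n ≤ 4 * E.w i
  inv_cell : ∀ i k : ℕ, j ≤ i → k < nc E.δ i → ∑ n ∈ E.cs R i k, 1 / (n : ℝ) ≤ E.w i / 16

theorem keyT (hGB : E.GBounds) (hU : E.UPart) (hH : E.HPart) (hS : E.SPart) :
    ∃ R₀ : ℕ, ∀ R : ℕ, R₀ ≤ R → ∃ J : ℕ, ∀ j : ℕ, J ≤ j → KeyT E R j := by
  obtain ⟨J0, hJ0, hGB⟩ := hGB
  obtain ⟨R1, hU⟩ := hU
  obtain ⟨R2, hH⟩ := hH
  obtain ⟨J3, hS⟩ := hS
  refine ⟨max R1 R2, fun R hR => ?_⟩
  obtain ⟨J1, hU⟩ := hU R ((le_max_left _ _).trans hR)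
  obtain ⟨J2, hH⟩ := hH R ((le_max_right _ _).trans hR)
  refine ⟨max (max J0 J1) (max J2 J3), fun j hj => ?_⟩
  have hj0 : J0 ≤ j := ((le_max_left _ _).trans (le_max_left _ _)).trans hj
  have hj1 : J1 ≤ j := ((le_max_right _ _).trans (le_max_left _ _)).trans hj
  have hj2 : J2 ≤ j := ((le_max_left _ _).trans (le_max_right _ _)).trans hj
  have hj3 : J3 ≤ j := ((le_max_right _ _).trans (le_max_right _ _)).trans hj
  obtain ⟨_, hu0, hh0, _⟩ := hGB j hj0
  -- the three sums over a cell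
  have hbig : ∀ i k : ℕ, j ≤ i → k < nc E.δ i →
      ∑ n ∈ E.cs R i k, E.big j i n ≤ E.w i + E.w i / 8 := by
    intro i k hi hk
    have a1 := hU j hj1 i hi k hk
    have a2 := hH j hj2 i hi k hk
    unfold Env.big
    rw [sum_add_distrib]
    refine (add_le_add a1 a2).trans (le_of_eq ?_)
    split_ifs <;> ring
  have hsm : ∀ i k : ℕ, j ≤ i → k < nc E.δ i →
      ∑ n ∈ E.cs R i k, (1 / (n : ℝ)) * ∏ p ∈ n.primeFactors, (1 + 2 * (p * E.gs j i p)) ≤
        E.w i / 16 := by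
    intro i k hi hk
    refine le_trans (sum_le_sum_of_subset_of_nonneg ?_ ?_) (hS j hj3 i hi k hk)
    · intro n hn
      unfold Env.cs at hn
      rw [mem_filter] at hn ⊢
      exact ⟨hn.1, hn.2.1⟩
    · intro n _ _
      refine mul_nonneg (by positivity) (prod_nonneg fun p _ => ?_)
      have := mul_nonneg (Nat.cast_nonneg (α := ℝ) p) (E.gs_nonneg j i p (hu0 p) (hh0 p))
      linarith
  have hsq : ∀ i k n : ℕ, n ∈ E.cs R i k → Squarefree n := fun i k n hn => by
    unfold Env.cs at hn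
    exact (mem_filter.1 hn).2.1
  refine ⟨hu0, hh0, ?_, ?_, ?_⟩
  · intro i k hi hk
    have hw := E.w_pos i (hJ0.trans (hj0.trans hi))
    calc ∑ n ∈ E.cs R i k, E.tau j n
        ≤ ∑ n ∈ E.cs R i k, (E.big j i n +
            (1 / (n : ℝ)) * ∏ p ∈ n.primeFactors, (1 + 2 * (p * E.gs j i p))) :=
          sum_le_sum fun n hn => (E.point j i n hu0 hh0 (hsq i k n hn)).1
      _ ≤ (E.w i + E.w i / 8) + E.w i / 16 := by
          rw [sum_add_distrib]
          exact add_le_add (hbig i k hi hk) (hsm i k hi hk)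
      _ ≤ _ := by linarith
  · intro i k hi hk
    have hw := E.w_pos i (hJ0.trans (hj0.trans hi))
    calc ∑ n ∈ E.cs R i k, E.mass j n
        ≤ ∑ n ∈ E.cs R i k, (2 * E.big j i n +
            (1 / (n : ℝ)) * ∏ p ∈ n.primeFactors, (1 + 2 * (p * E.gs j i p))) :=
          sum_le_sum fun n hn => (E.point j i n hu0 hh0 (hsq i k n hn)).2.1
      _ ≤ 2 * (E.w i + E.w i / 8) + E.w i / 16 := by
          rw [sum_add_distrib, ← mul_sum]
          exact add_le_add (mul_le_mul_of_nonneg_left (hbig i k hi hk) (by norm_num))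
            (hsm i k hi hk)
      _ ≤ _ := by linarith
  · intro i k hi hk
    have hw := E.w_pos i (hJ0.trans (hj0.trans hi))
    calc ∑ n ∈ E.cs R i k, 1 / (n : ℝ)
        ≤ ∑ n ∈ E.cs R i k, (1 / (n : ℝ)) * ∏ p ∈ n.primeFactors, (1 + 2 * (p * E.gs j i p)) := by
          refine sum_le_sum fun n _ => ?_
          have h1 := one_le_prod1 n.primeFactors (fun p => 2 * (p * E.gs j i p)) fun p => by
            have := mul_nonneg (Nat.cast_nonneg (α := ℝ) p) (E.gs_nonneg j i p (hu0 p) (hh0 p))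
            linarith
          have h2 : (0 : ℝ) ≤ 1 / (n : ℝ) := by positivity
          nlinarith
      _ ≤ E.w i / 16 := hsm i k hi hk


/-- the rough numbers of a cell -/
noncomputable def ra (R i k : ℕ) : Finset ℕ := (cell E.δ i k).filter (fun n => Rough R n)

/-- total mass of first order -/
noncomputable def tauS (j n : ℕ) : ℝ := if Squarefree n then E.tau j n else E2s E j n / n

/-- total mass -/
noncomputable def massS (j n : ℕ) : ℝ := if Squarefree n then E.mass j n else E2s E j n / n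

theorem sum_ra (R i k : ℕ) (u v : ℕ → ℝ) :
    ∑ n ∈ ra E R i k, (if Squarefree n then u n else v n) =
      ∑ n ∈ E.cs R i k, u n + ∑ n ∈ ns E R i k, v n := by
  rw [← Finset.sum_filter_add_sum_filter_not (ra E R i k) Squarefree]
  congr 1
  · have h : (ra E R i k).filter Squarefree = E.cs R i k := by
      unfold ra Env.cs
      ext n
      simp only [mem_filter]
      tauto
    rw [h]
    refine sum_congr rfl fun n hn => ?_
    unfold Env.cs at hn
    rw [if_pos (mem_filter.1 hn).2.1]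
  · have h : (ra E R i k).filter (fun n => ¬ Squarefree n) = ns E R i k := by
      unfold ra ns
      ext n
      simp only [mem_filter]
      tauto
    rw [h]
    refine sum_congr rfl fun n hn => ?_
    unfold ns at hn
    rw [if_neg (mem_filter.1 hn).2.1]

/-- the key inequality for the cells -/
structure KeyS (R j : ℕ) : Prop where
  u0 : ∀ p, 0 ≤ E.gu j p
  h0 : ∀ p, 0 ≤ E.gh j p
  tau_cell : ∀ i k : ℕ, j ≤ i → k < nc E.δ i →
    ∑ n ∈ ra E R i k, tauS E j n ≤ E.w i + E.w i / 4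
  mass_cell : ∀ i k : ℕ, j ≤ i → k < nc E.δ i → ∑ n ∈ ra E R i k, massS E j n ≤ 5 * E.w i
  inv_cell : ∀ i k : ℕ, j ≤ i → k < nc E.δ i → ∑ n ∈ ra E R i k, 1 / (n : ℝ) ≤ E.w i / 4

theorem keyS (hHC : E.HCount) (hGB : E.GBounds) (hPB : Env.PairB E.τ E.δ)
    (hU : E.UPart) (hH : E.HPart) (hS : E.SPart) :
    ∃ R₀ : ℕ, ∀ R : ℕ, R₀ ≤ R → ∃ J : ℕ, ∀ j : ℕ, J ≤ j → KeyS E R j := by
  obtain ⟨R1, h1⟩ := keyT E hGB hU hH hS
  obtain ⟨R2, h2⟩ := nskey E hHC hGB hPB
  refine ⟨max R1 R2, fun R hR => ?_⟩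
  obtain ⟨J1, h1⟩ := h1 R ((le_max_left _ _).trans hR)
  obtain ⟨J2, h2⟩ := h2 R ((le_max_right _ _).trans hR)
  refine ⟨max J1 J2, fun j hj => ?_⟩
  have h1 := h1 j ((le_max_left _ _).trans hj)
  have h2 := h2 j ((le_max_right _ _).trans hj)
  refine ⟨h1.u0, h1.h0, ?_, ?_, ?_⟩
  · intro i k hi hk
    unfold tauS
    rw [sum_ra]
    have a1 := h1.tau_cell i k hi hk
    have a2 := h2 i hi k hk
    linarith
  · intro i k hi hk
    unfold massS
    rw [sum_ra]
    have a1 := h1.mass_cell i k hi hk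
    have a2 := h2 i hi k hk
    have a3 := E.w_nonneg i
    linarith
  · intro i k hi hk
    have e : ∑ n ∈ ra E R i k, 1 / (n : ℝ) =
        ∑ n ∈ ra E R i k, (if Squarefree n then 1 / (n : ℝ) else 1 / (n : ℝ)) :=
      sum_congr rfl fun n _ => by split_ifs <;> rfl
    rw [e, sum_ra]
    have a1 := h1.inv_cell i k hi hk
    have a2 := h2 i hi k hk
    have a3 := E.w_nonneg i
    have a4 : ∑ n ∈ ns E R i k, 1 / (n : ℝ) ≤ ∑ n ∈ ns E R i k, E2s E j n / n := by
      refine sum_le_sum fun n hn => ?_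
      unfold ns at hn
      have h3 := (cell_loc E.δ E.hδ i k n hk (mem_filter.1 hn).1).1
      have h6 : 0 < 2 ^ i := by positivity
      have h4 : n ≠ 0 := by omega
      have h5 := E2s_one_le h1.u0 h1.h0 h4
      exact div_le_div_of_nonneg_right h5 (Nat.cast_nonneg n)
    linarith

end Q236.CM
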