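import Pool.Agent.Q236.CM.SP2
import Pool.Agent.Q236.CM.HX
import Pool.Agent.Q236.CM.UP

/-!
# The contribution of the numbers which are not squarefree
-/

set_option autoImplicit false

namespace Q236.CM

open Finset Filter Topology
open scoped Classical
open Pool.Agent.W76.MO

/-- pointwise bound -/
theorem point_s (E : Env) {j i n : ℕ} (hu : ∀ p, 0 ≤ E.gu j p) (hh : ∀ p, 0 ≤ E.gh j p)
    (hn : n ≠ 0) :
    E2s E j n / n ≤ 2 * (∑ p ∈ n.primeFactors.filter (fun p : ℕ => (2 : ℝ) ^ (3 / 5 * (i : ℝ)) < p),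
        E.gu j p * (E2s E j (n / p) / ((n / p : ℕ) : ℝ)) +
      ∑ q ∈ n.primeFactors.filter (fun q : ℕ => (2 : ℝ) ^ (1 / 20 * (i : ℝ)) < q),
        E.gh j q * (E2s E j (n / q) / ((n / q : ℕ) : ℝ))) + (1 / (n : ℝ)) * Ph E j i n := by
  obtain ⟨hd, hsq⟩ := dec n
  obtain ⟨hm0, hs0⟩ := dec_pos hn
  have hE := E2s_dec (E := E) (j := j) hn
  have hE2 : E.E2 j (sfp n) = ∏ p ∈ (sfp n).primeFactors,
      (1 + 2 * (p * E.gl j i p + p * E.gs j i p)) := by
    unfold Env.E2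
    refine prod_congr rfl fun p _ => ?_
    rw [← E.gl_add_gs j i p]
    ring
  have hsplit := split_two (sfp n).primeFactors (fun p => p * E.gl j i p) (fun p => p * E.gs j i p)
    (fun p => mul_nonneg (Nat.cast_nonneg p) (E.gl_nonneg j i p (hu p) (hh p)))
    (fun p => mul_nonneg (Nat.cast_nonneg p) (E.gs_nonneg j i p (hu p) (hh p)))
  rw [← hE2] at hsplit
  have hterm : ∀ p ∈ (sfp n).primeFactors, E2s E j (sqp n) ^ 2 *
      ∏ q ∈ (sfp n).primeFactors.erase p, (1 + 2 * (q * E.gl j i q + q * E.gs j i q)) =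
      E2s E j (n / p) := by
    intro p hp
    have hpp := Nat.prime_of_mem_primeFactors hp
    have hpd := Nat.dvd_of_mem_primeFactors hp
    have hsq' : Squarefree (sfp n / p) := hsq.squarefree_of_dvd (Nat.div_dvd_of_dvd hpd)
    have e1 : ∏ q ∈ (sfp n).primeFactors.erase p, (1 + 2 * (q * E.gl j i q + q * E.gs j i q)) =
        E2s E j (sfp n / p) := by
      rw [E2s_sqf E j hsq']
      unfold Env.E2
      rw [primeFactors_div (sfp n) p hsq hp]
      refine prod_congr rfl fun q _ => ?_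
      rw [← E.gl_add_gs j i q]
      ring
    have e2 : n / p = sqp n ^ 2 * (sfp n / p) := by
      conv_lhs => rw [← hd]
      rw [Nat.mul_div_assoc _ hpd]
    rw [e1, e2]
    unfold E2s
    rw [LP_sq_mul _ hm0.ne' hsq'.ne_zero]
  have hA0 : ∀ p : ℕ, 0 ≤ (p : ℝ) * E.gl j i p * E2s E j (n / p) := fun p =>
    mul_nonneg (mul_nonneg (Nat.cast_nonneg p) (E.gl_nonneg j i p (hu p) (hh p)))
      (E2s_nonneg hu hh _)
  have h1 : E2s E j n ≤ 2 * ∑ p ∈ n.primeFactors, (p : ℝ) * E.gl j i p * E2s E j (n / p) +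
      Ph E j i n := by
    rw [hE]
    have hsq0 : 0 ≤ E2s E j (sqp n) ^ 2 := sq_nonneg _
    have h2 := mul_le_mul_of_nonneg_left hsplit hsq0
    refine h2.trans ?_
    have e3 : E2s E j (sqp n) ^ 2 * (2 * ∑ p ∈ (sfp n).primeFactors, ((p : ℝ) * E.gl j i p) *
        ∏ q ∈ (sfp n).primeFactors.erase p, (1 + 2 * (q * E.gl j i q + q * E.gs j i q)) +
        ∏ p ∈ (sfp n).primeFactors, (1 + 2 * (p * E.gs j i p))) =
        2 * ∑ p ∈ (sfp n).primeFactors, (p : ℝ) * E.gl j i p * E2s E j (n / p) +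
        Ph E j i n := by
      unfold Ph Bs
      rw [mul_add, mul_left_comm, mul_sum]
      congr 2
      refine sum_congr rfl fun p hp => ?_
      rw [← hterm p hp]
      ring
    rw [e3]
    have hsub : (sfp n).primeFactors ⊆ n.primeFactors := by
      apply Nat.primeFactors_mono ⟨sqp n ^ 2, by rw [mul_comm]; exact hd.symm⟩ hn
    have h4 := sum_le_sum_of_subset_of_nonneg hsub (fun p _ _ => hA0 p)
    linarith
  have hnR : (0 : ℝ) < n := by exact_mod_cast Nat.pos_of_ne_zero hn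
  have h5 : E2s E j n / n ≤ (1 / (n : ℝ)) * (2 * ∑ p ∈ n.primeFactors,
      (p : ℝ) * E.gl j i p * E2s E j (n / p) + Ph E j i n) := by
    rw [div_eq_mul_one_div, mul_comm]
    exact mul_le_mul_of_nonneg_left h1 (by positivity)
  refine h5.trans (le_of_eq ?_)
  rw [mul_add, mul_left_comm, mul_sum]
  congr 2
  rw [sum_filter, sum_filter, ← sum_add_distrib]
  refine sum_congr rfl fun p hp => ?_
  have hpp := Nat.prime_of_mem_primeFactors hp
  have hp0 : (p : ℝ) ≠ 0 := by exact_mod_cast hpp.ne_zero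
  rw [cast_div_prime n p hp]
  unfold Env.gl
  have h2 : ∀ c : ℝ, (1 / (n : ℝ)) * (p * c * E2s E j (n / p)) =
      c * (E2s E j (n / p) / ((n : ℝ) / p)) := by
    intro c
    field_simp
  rw [h2]
  split_ifs <;> ring

/-- **the numbers which are not squarefree** -/
theorem nskey (E : Env) (hHC : E.HCount) (hGB : E.GBounds) (hPB : Env.PairB E.τ E.δ) :
    ∃ R₀ : ℕ, ∀ R : ℕ, R₀ ≤ R → ∃ J : ℕ, ∀ j : ℕ, J ≤ j → ∀ i : ℕ, j ≤ i →
    ∀ k : ℕ, k < nc E.δ i → ∑ n ∈ ns E R i k, E2s E j n / n ≤ E.w i / 16 := by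
  obtain ⟨R1, hU⟩ := ups E hGB
  obtain ⟨R2, hH⟩ := hparts E hHC hGB hPB
  obtain ⟨J3, hS⟩ := sps E hGB
  obtain ⟨J0, hJ0, hGB⟩ := hGB
  refine ⟨max R1 R2, fun R hR => ?_⟩
  obtain ⟨J1, hU⟩ := hU R ((le_max_left _ _).trans hR)
  obtain ⟨J2, hH⟩ := hH R ((le_max_right _ _).trans hR)
  refine ⟨max (max J0 J1) (max J2 J3), fun j hj i hi k hk => ?_⟩
  have hj0 : J0 ≤ j := ((le_max_left _ _).trans (le_max_left _ _)).trans hj
  have hj1 : J1 ≤ j := ((le_max_right _ _).trans (le_max_left _ _)).trans hj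
  have hj2 : J2 ≤ j := ((le_max_left _ _).trans (le_max_right _ _)).trans hj
  have hj3 : J3 ≤ j := ((le_max_right _ _).trans (le_max_right _ _)).trans hj
  obtain ⟨_, hu0, hh0, _⟩ := hGB j hj0
  have hw := E.w_nonneg i
  have h1 : ∀ n ∈ ns E R i k, n ≠ 0 := by
    intro n hn
    unfold ns at hn
    have h2 := (cell_loc E.δ E.hδ i k n hk (mem_filter.1 hn).1).1
    have h3 : 0 < 2 ^ i := by positivity
    omega
  refine (sum_le_sum fun n hn => point_s E (i := i) hu0 hh0 (h1 n hn)).trans ?_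
  rw [sum_add_distrib, ← mul_sum, sum_add_distrib]
  have a1 := hU j hj1 i hi k hk
  have a2 := hH j hj2 i hi k hk
  have a3 := hS j hj3 i hi R k hk
  linarith

end Q236.CM
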