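import Pool.Agent.Q236.CM.BG
import Pool.Agent.W640.MO.H1
import Pool.Agent.W596.MO.UP

/-!
# Numbers which are not squarefree: contribution of the small control primes
-/

set_option autoImplicit false

namespace Q236.CM

open Finset Filter Topology
open scoped Classical
open Pool.Agent.W76.MO

/-- `n = sqp n ^ 2 * sfp n` with `sfp n` squarefree -/
noncomputable def sqp (n : ℕ) : ℕ := (Nat.sq_mul_squarefree n).choose_spec.choose

/-- the squarefree part -/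
noncomputable def sfp (n : ℕ) : ℕ := (Nat.sq_mul_squarefree n).choose

theorem dec (n : ℕ) : sqp n ^ 2 * sfp n = n ∧ Squarefree (sfp n) :=
  (Nat.sq_mul_squarefree n).choose_spec.choose_spec

theorem dec_pos {n : ℕ} (hn : n ≠ 0) : 0 < sqp n ∧ 0 < sfp n := by
  have h := (dec n).1
  constructor
  · rcases Nat.eq_zero_or_pos (sqp n) with h0 | h0
    · rw [h0] at h; simp at h; omega
    · exact h0
  · rcases Nat.eq_zero_or_pos (sfp n) with h0 | h0
    · rw [h0] at h; simp at h; omega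
    · exact h0

theorem two_le_sqp {n : ℕ} (hn : n ≠ 0) (hs : ¬ Squarefree n) : 2 ≤ sqp n := by
  have h := dec n
  have h1 := (dec_pos hn).1
  by_contra hc
  have h2 : sqp n = 1 := by omega
  rw [h2, one_pow, one_mul] at h
  exact hs (h.1 ▸ h.2)

variable (E : Env)

/-- small part at a squarefree number -/
noncomputable def Bs (j i s : ℕ) : ℝ := ∏ p ∈ s.primeFactors, (1 + 2 * (p * E.gs j i p))

/-- the small part -/
noncomputable def Ph (j i n : ℕ) : ℝ := E2s E j (sqp n) ^ 2 * Bs E j i (sfp n)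

variable {E}

theorem Bs_nonneg {j i : ℕ} (hu : ∀ p, 0 ≤ E.gu j p) (hh : ∀ p, 0 ≤ E.gh j p) (s : ℕ) :
    0 ≤ Bs E j i s := by
  unfold Bs
  apply prod_nonneg
  intro p _
  have := E.gs_nonneg j i p (hu p) (hh p)
  positivity

theorem Ph_nonneg {j i : ℕ} (hu : ∀ p, 0 ≤ E.gu j p) (hh : ∀ p, 0 ≤ E.gh j p) (n : ℕ) :
    0 ≤ Ph E j i n := mul_nonneg (sq_nonneg _) (Bs_nonneg hu hh _)

theorem E2s_dec {j n : ℕ} (hn : n ≠ 0) :
    E2s E j n = E2s E j (sqp n) ^ 2 * E.E2 j (sfp n) := by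
  have h := dec_pos hn
  conv_lhs => rw [← (dec n).1]
  unfold E2s
  rw [LP_sq_mul _ h.1.ne' h.2.ne']
  congr 1
  exact E2s_sqf E j (dec n).2

theorem Ph_le {j i n : ℕ} (hu : ∀ p, 0 ≤ E.gu j p) (hh : ∀ p, 0 ≤ E.gh j p) (hn : n ≠ 0) :
    Ph E j i n ≤ E2s E j n := by
  rw [E2s_dec hn]
  unfold Ph
  apply mul_le_mul_of_nonneg_left _ (sq_nonneg _)
  unfold Bs Env.E2
  apply Finset.prod_le_prod
  · intro p _
    have := E.gs_nonneg j i p (hu p) (hh p)
    positivity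
  · intro p _
    have h1 := E.gl_nonneg j i p (hu p) (hh p)
    rw [← E.gl_add_gs j i p]
    have h2 : (0 : ℝ) ≤ p := Nat.cast_nonneg p
    nlinarith

/-- the map to the squarefree part is injective on a cell -/
theorem sfp_inj {δ : ℝ} (hδ : 0 < δ) (hδ2 : δ ≤ 1 / 2) {i k : ℕ} (hk : k < nc δ i) :
    Set.InjOn sfp (cell δ i k : Set ℕ) := by
  have hh2 : hh δ i * hh δ i ≤ 2 ^ i := by
    have h1 := Pool.Agent.W683.MO.hh_le hδ2 i
    have h2 : (hh δ i : ℝ) * hh δ i ≤ 2 ^ i := by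
      calc (hh δ i : ℝ) * hh δ i ≤ (2 : ℝ) ^ ((1 / 2 - δ) * i) * (2 : ℝ) ^ ((1 / 2 - δ) * i) :=
            mul_le_mul h1 h1 (Nat.cast_nonneg _) (by positivity)
        _ = (2 : ℝ) ^ ((1 / 2 - δ) * i + (1 / 2 - δ) * i) := by
            rw [← Real.rpow_add (by norm_num)]
        _ ≤ (2 : ℝ) ^ (i : ℝ) := by
            apply Real.rpow_le_rpow_of_exponent_le (by norm_num)
            have : (0 : ℝ) ≤ i := Nat.cast_nonneg i
            nlinarith
        _ = 2 ^ i := Real.rpow_natCast 2 i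
    exact_mod_cast h2
  have key : ∀ n n' : ℕ, n ∈ cell δ i k → n' ∈ cell δ i k → sfp n = sfp n' → n < n' → False := by
    intro n n' hn hn' hs hlt
    have c1 := Pool.Agent.W683.MO.cell_sub hδ.le hk hn
    have c2 := Pool.Agent.W683.MO.cell_sub hδ.le hk hn'
    rw [Pool.Agent.W683.MO.mem_cell] at hn hn'
    have d1 := (dec n).1
    have d2 := (dec n').1
    have p1 := dec_pos (show n ≠ 0 by omega)
    rw [← hs] at d2
    set m := sqp n
    set m' := sqp n'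
    set s := sfp n
    have e1 : (k + 1) * hh δ i = k * hh δ i + hh δ i := by ring
    have h1 : n' ≤ n + hh δ i := by omega
    have h2 : m < m' := by
      by_contra hc
      push Not at hc
      have : m' ^ 2 * s ≤ m ^ 2 * s := Nat.mul_le_mul_right _ (Nat.pow_le_pow_left hc 2)
      omega
    have h3 : (m + 1) ^ 2 * s ≤ m' ^ 2 * s := Nat.mul_le_mul_right _ (Nat.pow_le_pow_left h2 2)
    have h4 : (m + 1) ^ 2 * s = m ^ 2 * s + (2 * m * s + s) := by ring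
    have h5 : 2 * m * s < hh δ i := by omega
    have h6 : (2 * m * s) * (2 * m * s) < hh δ i * hh δ i := Nat.mul_lt_mul_of_lt_of_lt h5 h5
    have h7 : (2 * m * s) * (2 * m * s) = 4 * (m ^ 2 * s) * s := by ring
    have h8 : 4 * (m ^ 2 * s) * 1 ≤ 4 * (m ^ 2 * s) * s := Nat.mul_le_mul_left _ p1.2
    omega
  intro n hn n' hn' h
  rcases Nat.lt_trichotomy n n' with h1 | h1 | h1
  · exact (key n n' hn hn' h h1).elim
  · exact h1
  · exact (key n' n hn' hn h.symm h1).elim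

theorem sum_inv_le (i : ℕ) (A : Finset ℕ) (hA : ∀ m ∈ A, 1 ≤ m ∧ m ≤ 2 ^ i) :
    ∑ m ∈ A, 1 / (m : ℝ) ≤ 1 + i := by
  refine le_trans (sum_le_sum_of_subset_of_nonneg (fun m hm => mem_Icc.2 (hA m hm)) ?_)
    (Env.harm_le i)
  intro m _ _
  positivity

/-- the squarefree part of a number of a cell lies in a short interval -/
theorem sfp_mem {δ : ℝ} {i k m n : ℕ} (hm : 0 < m) (hn : n ∈ cell δ i k) (hmn : sqp n = m) :
    sfp n ∈ Ioc ((2 ^ i + k * hh δ i) / m ^ 2)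
      ((2 ^ i + k * hh δ i) / m ^ 2 + (hh δ i / m ^ 2 + 1)) := by
  have hd := (dec n).1
  rw [hmn] at hd
  rw [Pool.Agent.W683.MO.mem_cell] at hn
  have hm2 : 0 < m ^ 2 := by positivity
  rw [mem_Ioc]
  constructor
  · rw [Nat.div_lt_iff_lt_mul hm2, mul_comm (sfp n), hd]
    exact hn.1
  · have h1 : sfp n ≤ (2 ^ i + (k + 1) * hh δ i) / m ^ 2 := by
      rw [Nat.le_div_iff_mul_le hm2, mul_comm (sfp n), hd]
      exact hn.2
    have h2 : (2 ^ i + (k + 1) * hh δ i) / m ^ 2 ≤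
        (2 ^ i + k * hh δ i) / m ^ 2 + (hh δ i / m ^ 2 + 1) := by
      have e : 2 ^ i + (k + 1) * hh δ i = (2 ^ i + k * hh δ i) + hh δ i := by ring
      rw [e, Nat.add_div hm2]
      split_ifs <;> omega
    omega

/-- part 1: small square part -/
theorem part1 (E : Env) (hG : E.GBounds) : ∃ J : ℕ, ∀ j : ℕ, J ≤ j → ∀ i : ℕ, j ≤ i →
    ∀ R k : ℕ, k < nc E.δ i →
    ∑ n ∈ (ns E R i k).filter (fun n => (sqp n : ℝ) ≤ (2 : ℝ) ^ (1 / 20 * (i : ℝ))),
      (1 / (n : ℝ)) * Ph E j i n ≤ E.w i / 128 := by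
  obtain ⟨JA, -, hA⟩ := Pool.Agent.W683.MO.A_bound E hG
  obtain ⟨JB, -, hB⟩ := B_gen E hG
  obtain ⟨J0, hJ0, hJ⟩ := hG
  have hδ := E.hδ
  have hτ := E.hτ
  have hδ1 : E.δ ≤ 1 / 100000 := by
    have := E.hδ'
    have := E.hτ'
    linarith
  refine ⟨JA + JB + J0 + 20, fun j hj i hij R k hk => ?_⟩
  obtain ⟨-, hgu, hgh, g4, g5, g6, g7, -, -⟩ := hJ j (by omega)
  have hA' := hA j (by omega) i hij
  have hB' := hB j (by omega) i hij
  have hf := Pool.Agent.W640.MO.factor_le E (by omega) g4 g5 g6 g7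
  have hiR : (20 : ℝ) ≤ i := by exact_mod_cast (by omega : 20 ≤ i)
  set a : ℝ := (2 : ℝ) ^ (E.δ / 2 * i) / (i : ℝ) ^ 50 with ha
  have hapos : 0 < a := by positivity
  have hhpos : (0 : ℝ) < hh E.δ i := by exact_mod_cast hh_pos E.δ i
  set N1 := (ns E R i k).filter (fun n => (sqp n : ℝ) ≤ (2 : ℝ) ^ (1 / 20 * (i : ℝ))) with hN1
  have hmemN : ∀ n ∈ N1, n ∈ cell E.δ i k ∧ ¬ Squarefree n ∧
      (sqp n : ℝ) ≤ (2 : ℝ) ^ (1 / 20 * (i : ℝ)) := by
    intro n hn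
    rw [hN1, mem_filter] at hn
    have h1 := hn.1
    unfold ns at h1
    rw [mem_filter] at h1
    exact ⟨h1.1, h1.2.1, hn.2⟩
  set Bh : ℕ → ℝ := fun s => ∏ p ∈ s.primeFactors.filter
    (fun p : ℕ => (p : ℝ) ≤ (2 : ℝ) ^ (1 / 20 * (i : ℝ))), (1 + 2 * (p * E.gh j p)) with hBh
  have hBh0 : ∀ s, 0 ≤ Bh s := by
    intro s
    apply prod_nonneg
    intro p _
    have := hgh p
    positivity
  -- pointwise bound
  have hpt : ∀ n ∈ N1, (1 / (n : ℝ)) * Ph E j i n ≤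
      (1 / 2 ^ i * a) * ((sqp n : ℝ) * Bh (sfp n)) := by
    intro n hn
    obtain ⟨hc, hsq, hm⟩ := hmemN n hn
    have hn2 := Pool.Agent.W683.MO.cell_sub hδ.le hk hc
    have hn0 : n ≠ 0 := by omega
    have hd := dec_pos hn0
    have hnR : (2 : ℝ) ^ i ≤ n := by exact_mod_cast hn2.1.le
    have hs2 : sfp n ≤ 2 ^ (i + 1) := by
      have h1 := (dec n).1
      have h2 : 1 * sfp n ≤ sqp n ^ 2 * sfp n := Nat.mul_le_mul_right _ (Nat.pow_pos hd.1)
      omega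
    have h2 : Bs E j i (sfp n) ≤ a * Bh (sfp n) := by
      have h3 : Bs E j i (sfp n) ≤
        (∏ p ∈ (sfp n).primeFactors.filter (fun p : ℕ => (p : ℝ) ≤ (2 : ℝ) ^ (3 / 5 * (i : ℝ))),
          (1 + 2 * (p * E.gu j p))) * Bh (sfp n) := by
        unfold Bs
        simp only [hBh]
        rw [prod_filter, prod_filter, ← prod_mul_distrib]
        apply Finset.prod_le_prod
        · intro p _
          have := E.gs_nonneg j i p (hgu p) (hgh p)
          positivity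
        · intro p _
          unfold Env.gs
          have h3 : 0 ≤ (p : ℝ) * E.gu j p := mul_nonneg (Nat.cast_nonneg p) (hgu p)
          have h4 : 0 ≤ (p : ℝ) * E.gh j p := mul_nonneg (Nat.cast_nonneg p) (hgh p)
          split_ifs
          · nlinarith [mul_nonneg h3 h4]
          · nlinarith
          · nlinarith
          · nlinarith
      exact h3.trans (mul_le_mul_of_nonneg_right (hA' _ hd.2 hs2) (hBh0 _))
    have h4 : E2s E j (sqp n) ^ 2 ≤ (sqp n : ℝ) := by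
      have h5 := E2s_le hgu hgh hf hd.1.ne'
      have h6 := E2s_nonneg hgu hgh (sqp n) (j := j)
      have hm1 : (1 : ℝ) ≤ sqp n := by exact_mod_cast hd.1
      calc E2s E j (sqp n) ^ 2 ≤ ((sqp n : ℝ) ^ (9 * E.δ)) ^ 2 := pow_le_pow_left₀ h6 h5 2
        _ = (sqp n : ℝ) ^ (9 * E.δ * 2) := by
            rw [← Real.rpow_natCast, ← Real.rpow_mul (by linarith)]
            norm_num
        _ ≤ (sqp n : ℝ) ^ (1 : ℝ) :=
            Real.rpow_le_rpow_of_exponent_le hm1 (by linarith)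
        _ = sqp n := Real.rpow_one _
    have h7 : 1 / (n : ℝ) ≤ 1 / 2 ^ i := one_div_le_one_div_of_le (by positivity) hnR
    have h8 : Ph E j i n ≤ (sqp n : ℝ) * (a * Bh (sfp n)) :=
      mul_le_mul h4 h2 (Bs_nonneg hgu hgh _) (Nat.cast_nonneg _)
    calc (1 / (n : ℝ)) * Ph E j i n ≤ (1 / 2 ^ i) * ((sqp n : ℝ) * (a * Bh (sfp n))) :=
          mul_le_mul h7 h8 (Ph_nonneg hgu hgh n) (by positivity)
      _ = _ := by ring
  refine (sum_le_sum hpt).trans ?_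
  rw [← mul_sum]
  -- fibres over `sqp n`
  set A : Finset ℕ := (Icc 2 (2 ^ i)).filter (fun m => (m : ℝ) ≤ (2 : ℝ) ^ (1 / 20 * (i : ℝ)))
    with hAd
  have hmaps : ∀ n ∈ N1, sqp n ∈ A := by
    intro n hn
    obtain ⟨hc, hsq, hm⟩ := hmemN n hn
    have hn2 := Pool.Agent.W683.MO.cell_sub hδ.le hk hc
    rw [hAd, mem_filter, mem_Icc]
    refine ⟨⟨two_le_sqp (by omega) hsq, ?_⟩, hm⟩
    have h1 : (sqp n : ℝ) ≤ ((2 ^ i : ℕ) : ℝ) := by
      refine hm.trans ?_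
      push_cast
      rw [← Real.rpow_natCast]
      apply Real.rpow_le_rpow_of_exponent_le (by norm_num)
      linarith
    exact_mod_cast h1
  rw [← Finset.sum_fiberwise_of_maps_to hmaps]
  have hfib : ∀ m ∈ A, ∑ n ∈ N1.filter (fun n => sqp n = m), (sqp n : ℝ) * Bh (sfp n) ≤
      10 * hh E.δ i * (1 / (m : ℝ)) := by
    intro m hm
    rw [hAd, mem_filter, mem_Icc] at hm
    obtain ⟨⟨hm2, hmi⟩, hmR⟩ := hm
    have hm0 : (0 : ℝ) < m := by
      have : 0 < m := by omega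
      exact_mod_cast this
    set x := (2 ^ i + k * hh E.δ i) / m ^ 2 with hx
    set L := hh E.δ i / m ^ 2 + 1 with hL
    have e1 : ∑ n ∈ N1.filter (fun n => sqp n = m), (sqp n : ℝ) * Bh (sfp n) =
        (m : ℝ) * ∑ n ∈ N1.filter (fun n => sqp n = m), Bh (sfp n) := by
      rw [mul_sum]
      refine sum_congr rfl fun n hn => ?_
      rw [(mem_filter.1 hn).2]
    have hinj : Set.InjOn sfp (N1.filter (fun n => sqp n = m) : Set ℕ) := by
      intro n hn n' hn' h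
      have k1 := mem_filter.1 (Finset.mem_coe.1 hn)
      have k2 := mem_filter.1 (Finset.mem_coe.1 hn')
      rw [← (dec n).1, ← (dec n').1, h, k1.2, k2.2]
    have e2 : ∑ n ∈ N1.filter (fun n => sqp n = m), Bh (sfp n) ≤
        ∑ s ∈ Ioc x (x + L), Bh s := by
      rw [← sum_image (f := Bh) hinj]
      apply sum_le_sum_of_subset_of_nonneg _ (fun s _ _ => hBh0 s)
      intro s hs
      obtain ⟨n, hn, rfl⟩ := mem_image.1 hs
      have k1 := mem_filter.1 hn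
      exact sfp_mem (by omega) (hmemN n k1.1).1 k1.2
    -- size of the interval
    have hmsq : (m : ℝ) ^ 2 ≤ (2 : ℝ) ^ (1 / 10 * (i : ℝ)) := by
      calc (m : ℝ) ^ 2 ≤ ((2 : ℝ) ^ (1 / 20 * (i : ℝ))) ^ 2 :=
            pow_le_pow_left₀ hm0.le hmR 2
        _ = (2 : ℝ) ^ (1 / 10 * (i : ℝ)) := by
            rw [← Real.rpow_natCast, ← Real.rpow_mul (by norm_num)]
            congr 1
            push_cast
            ring
    have hlh := Pool.Agent.W596.MO.le_hh E.δ i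
    have hbig : (2 : ℝ) ^ (3 / 10 * (i : ℝ)) ≤ (hh E.δ i : ℝ) / (m : ℝ) ^ 2 := by
      rw [le_div_iff₀ (by positivity)]
      calc (2 : ℝ) ^ (3 / 10 * (i : ℝ)) * (m : ℝ) ^ 2
          ≤ (2 : ℝ) ^ (3 / 10 * (i : ℝ)) * (2 : ℝ) ^ (1 / 10 * (i : ℝ)) :=
            mul_le_mul_of_nonneg_left hmsq (by positivity)
        _ = (2 : ℝ) ^ (3 / 10 * (i : ℝ) + 1 / 10 * (i : ℝ)) := by
            rw [← Real.rpow_add (by norm_num)]
        _ ≤ (2 : ℝ) ^ ((1 / 2 - E.δ) * i - 1) := by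
            apply Real.rpow_le_rpow_of_exponent_le (by norm_num)
            nlinarith
        _ ≤ _ := hlh
    have hone : (1 : ℝ) ≤ (hh E.δ i : ℝ) / (m : ℝ) ^ 2 :=
      le_trans (Real.one_le_rpow (by norm_num) (by positivity)) hbig
    have hL1 : (hh E.δ i : ℝ) / (m : ℝ) ^ 2 ≤ L := by
      rw [div_le_iff₀ (by positivity)]
      have h4 : hh E.δ i < (hh E.δ i / m ^ 2) * m ^ 2 + m ^ 2 :=
        Nat.lt_div_mul_add (by positivity)
      have h5 : hh E.δ i ≤ L * m ^ 2 := by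
        rw [hL, add_mul, one_mul]
        omega
      exact_mod_cast h5
    have hL2 : (L : ℝ) ≤ 2 * ((hh E.δ i : ℝ) / (m : ℝ) ^ 2) := by
      have h5 : ((hh E.δ i / m ^ 2 : ℕ) : ℝ) ≤ (hh E.δ i : ℝ) / ((m ^ 2 : ℕ) : ℝ) :=
        Nat.cast_div_le
      push_cast at h5
      rw [hL]
      push_cast
      linarith
    have hxL : x + L ≤ 2 ^ (i + 1) := by
      have h1 : x ≤ (2 ^ i + k * hh E.δ i) / 2 ^ 2 :=
        Nat.div_le_div_left (Nat.pow_le_pow_left hm2 2) (by norm_num)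
      have h2 : hh E.δ i / m ^ 2 ≤ hh E.δ i / 2 ^ 2 :=
        Nat.div_le_div_left (Nat.pow_le_pow_left hm2 2) (by norm_num)
      have h3 : (k + 1) * hh E.δ i ≤ nc E.δ i * hh E.δ i := Nat.mul_le_mul_right _ hk
      rw [nc_mul E.δ hδ i] at h3
      have h4 : (k + 1) * hh E.δ i = k * hh E.δ i + hh E.δ i := by ring
      have h5 : 2 ^ (i + 1) = 2 * 2 ^ i := by ring
      have h6 : 2 ^ 2 ≤ 2 ^ i := Nat.pow_le_pow_right (by norm_num) (by omega)
      omega
    have h3 := hB' x L (hbig.trans hL1) hxL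
    rw [e1]
    calc (m : ℝ) * ∑ n ∈ N1.filter (fun n => sqp n = m), Bh (sfp n)
        ≤ (m : ℝ) * (5 * L) := mul_le_mul_of_nonneg_left (e2.trans h3) hm0.le
      _ ≤ (m : ℝ) * (5 * (2 * ((hh E.δ i : ℝ) / (m : ℝ) ^ 2))) := by gcongr
      _ = 10 * hh E.δ i * (1 / (m : ℝ)) := by field_simp; ring
  have hsum1 : ∑ m ∈ A, ∑ n ∈ N1.filter (fun n => sqp n = m), (sqp n : ℝ) * Bh (sfp n) ≤
      10 * hh E.δ i * (1 + i) := by
    refine (sum_le_sum hfib).trans ?_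
    rw [← mul_sum]
    apply mul_le_mul_of_nonneg_left _ (by positivity)
    apply sum_inv_le
    intro m hm
    rw [hAd, mem_filter, mem_Icc] at hm
    omega
  refine (mul_le_mul_of_nonneg_left hsum1 (by positivity)).trans ?_
  have h4 := Pool.Agent.W683.MO.hh_le (δ := E.δ) (by linarith) i
  have h5 : (1 / 2 ^ i * a) * (10 * hh E.δ i * (1 + i)) ≤
      (1 / 2 ^ i * a) * (10 * (2 : ℝ) ^ ((1 / 2 - E.δ) * i) * (1 + i)) := by
    gcongr
  refine h5.trans ?_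
  have h6 : (1 / 2 ^ i * a) * (10 * (2 : ℝ) ^ ((1 / 2 - E.δ) * i) * (1 + i)) =
      10 * (1 + i) / (i : ℝ) ^ 10 * E.w i := by
    unfold Env.w
    have e1 : (2 : ℝ) ^ (-(1 / 2 + E.δ / 2) * (i : ℝ)) * (2 : ℝ) ^ i =
      (2 : ℝ) ^ ((1 / 2 - E.δ) * i) * (2 : ℝ) ^ (E.δ / 2 * i) := by
      rw [← Real.rpow_natCast 2 i, ← Real.rpow_add (by norm_num), ← Real.rpow_add (by norm_num)]
      congr 1
      ring
    rw [ha]
    have e2 : (1 / 2 ^ i * ((2 : ℝ) ^ (E.δ / 2 * i) / (i : ℝ) ^ 50)) *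
        (10 * (2 : ℝ) ^ ((1 / 2 - E.δ) * i) * (1 + i)) = 10 * (1 + i) / (i : ℝ) ^ 50 *
        (((2 : ℝ) ^ ((1 / 2 - E.δ) * i) * (2 : ℝ) ^ (E.δ / 2 * i)) / 2 ^ i) := by ring
    rw [e2, ← e1]
    field_simp
  rw [h6]
  have h7 : 10 * (1 + i) / (i : ℝ) ^ 10 ≤ 1 / 128 := by
    rw [div_le_div_iff₀ (by positivity) (by norm_num)]
    have h8 : (20 : ℝ) ^ 9 ≤ (i : ℝ) ^ 9 := pow_le_pow_left₀ (by norm_num) hiR 9
    have h9 : (i : ℝ) ^ 10 = i * (i : ℝ) ^ 9 := by ring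
    rw [h9]
    nlinarith
  have h8 := E.w_nonneg i
  have h9 := mul_le_mul_of_nonneg_right h7 h8
  linarith

end Q236.CM
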