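import Pool.Agent.Q236.CM.SP

/-!
# Numbers of a cell with a large square divisor
-/

set_option autoImplicit false

namespace Q236.CM

open Finset Filter Topology
open scoped Classical
open Pool.Agent.W76.MO

/-- the number of elements of a cell with a large square part -/
theorem count_sq {δ : ℝ} (hδ : 0 < δ) (hδ1 : δ ≤ 1 / 100000) {i k : ℕ} (hk : k < nc δ i) :
    (((cell δ i k).filter (fun n => ¬ (sqp n : ℝ) ≤ (2 : ℝ) ^ (1 / 20 * (i : ℝ)))).card : ℝ) ≤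
      hh δ i * ((1 + i) * (2 : ℝ) ^ (-(1 / 20) * (i : ℝ))) + (2 : ℝ) ^ ((1 / 2 - 12 * δ) * i) +
        2 * (2 : ℝ) ^ (24 * δ * i) := by
  have hi0 : (0 : ℝ) ≤ i := Nat.cast_nonneg i
  set M0 : ℝ := (2 : ℝ) ^ (1 / 20 * (i : ℝ)) with hM0
  set M1 : ℝ := (2 : ℝ) ^ ((1 / 2 - 12 * δ) * i) with hM1
  have hM0p : 0 < M0 := by positivity
  have hM1p : 0 < M1 := by positivity
  set S := (cell δ i k).filter (fun n => ¬ (sqp n : ℝ) ≤ M0) with hS
  set S1 := S.filter (fun n => (sqp n : ℝ) ≤ M1) with hS1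
  set S2 := S.filter (fun n => ¬ (sqp n : ℝ) ≤ M1) with hS2
  have hcellS : ∀ n ∈ S, n ∈ cell δ i k ∧ 2 ^ i < n ∧ n ≤ 2 ^ (i + 1) ∧ n ≠ 0 := by
    intro n hn
    have h1 := (mem_filter.1 hn).1
    have h2 := Pool.Agent.W683.MO.cell_sub hδ.le hk h1
    exact ⟨h1, h2.1, h2.2, by omega⟩
  have hsplit : (S.card : ℝ) = S1.card + S2.card := by
    have := Finset.card_filter_add_card_filter_not (s := S) (fun n => (sqp n : ℝ) ≤ M1)
    rw [← hS1, ← hS2] at this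
    exact_mod_cast this.symm
  -- first set
  set A : Finset ℕ := (Icc 1 (2 ^ i)).filter (fun m : ℕ => M0 < m ∧ (m : ℝ) ≤ M1) with hA
  have hS1sub : S1 ⊆ A.biUnion (fun m => (cell δ i k).filter (fun n => m ^ 2 ∣ n)) := by
    intro n hn
    rw [hS1, mem_filter] at hn
    obtain ⟨hc, h1, h2, h0⟩ := hcellS n hn.1
    have h3 := dec_pos h0
    rw [mem_biUnion]
    refine ⟨sqp n, ?_, mem_filter.2 ⟨hc, ⟨sfp n, (dec n).1.symm⟩⟩⟩
    rw [hA, mem_filter, mem_Icc]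
    have h4 : (sqp n : ℝ) ≤ ((2 ^ i : ℕ) : ℝ) := by
      refine hn.2.trans ?_
      push_cast
      rw [hM1, ← Real.rpow_natCast]
      apply Real.rpow_le_rpow_of_exponent_le (by norm_num)
      nlinarith
    exact ⟨⟨h3.1, by exact_mod_cast h4⟩, not_le.1 (mem_filter.1 hn.1).2, hn.2⟩
  have hcell : cell δ i k = Ioc (2 ^ i + k * hh δ i) (2 ^ i + k * hh δ i + hh δ i) := by
    unfold cell
    congr 1; ring
  have hc1 : (S1.card : ℝ) ≤ ∑ m ∈ A, ((hh δ i : ℝ) / ((m ^ 2 : ℕ) : ℝ) + 1) := by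
    have h1 := (card_le_card hS1sub).trans card_biUnion_le
    have h2 : (S1.card : ℝ) ≤ ∑ m ∈ A, (((cell δ i k).filter (fun n => m ^ 2 ∣ n)).card : ℝ) := by
      exact_mod_cast h1
    refine h2.trans (sum_le_sum fun m hm => ?_)
    rw [hA, mem_filter, mem_Icc] at hm
    rw [hcell]
    exact Pool.Agent.W683.MO.card_mult _ _ _ (Nat.pow_pos hm.1.1)
  have hc2 : ∑ m ∈ A, ((hh δ i : ℝ) / ((m ^ 2 : ℕ) : ℝ) + 1) ≤
      hh δ i * ((1 + i) * (2 : ℝ) ^ (-(1 / 20) * (i : ℝ))) + M1 := by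
    rw [sum_add_distrib]
    apply add_le_add
    · have h1 : ∀ m ∈ A, (hh δ i : ℝ) / ((m ^ 2 : ℕ) : ℝ) ≤
          hh δ i * (2 : ℝ) ^ (-(1 / 20) * (i : ℝ)) * (1 / (m : ℝ)) := by
        intro m hm
        rw [hA, mem_filter, mem_Icc] at hm
        have hm0 : (0 : ℝ) < m := hM0p.trans hm.2.1
        have h2 : (2 : ℝ) ^ (-(1 / 20) * (i : ℝ)) = 1 / M0 := by
          rw [hM0, neg_mul, Real.rpow_neg (by norm_num)]
          exact (one_div _).symm
        rw [h2]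
        push_cast
        rw [div_eq_mul_one_div, mul_assoc]
        apply mul_le_mul_of_nonneg_left _ (Nat.cast_nonneg _)
        rw [div_mul_div_comm, one_mul, pow_two]
        apply one_div_le_one_div_of_le (by positivity)
        exact mul_le_mul_of_nonneg_right hm.2.1.le hm0.le
      refine (sum_le_sum h1).trans ?_
      rw [← mul_sum]
      have h2 := sum_inv_le i A (fun m hm => by
        rw [hA, mem_filter, mem_Icc] at hm
        exact hm.1)
      calc (hh δ i : ℝ) * (2 : ℝ) ^ (-(1 / 20) * (i : ℝ)) * ∑ m ∈ A, 1 / (m : ℝ)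
          ≤ (hh δ i : ℝ) * (2 : ℝ) ^ (-(1 / 20) * (i : ℝ)) * (1 + i) :=
            mul_le_mul_of_nonneg_left h2 (by positivity)
        _ = _ := by ring
    · rw [sum_const, nsmul_eq_mul, mul_one]
      have h1 : A ⊆ Icc 1 ⌊M1⌋₊ := by
        intro m hm
        rw [hA, mem_filter, mem_Icc] at hm
        rw [mem_Icc]
        exact ⟨hm.1.1, Nat.le_floor hm.2.2⟩
      have h2 := card_le_card h1
      rw [Nat.card_Icc, Nat.add_sub_cancel] at h2
      calc (A.card : ℝ) ≤ (⌊M1⌋₊ : ℝ) := by exact_mod_cast h2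
        _ ≤ M1 := Nat.floor_le hM1p.le
  -- second set
  have hc3 : (S2.card : ℝ) ≤ 2 * (2 : ℝ) ^ (24 * δ * i) := by
    set T : ℝ := 2 * (2 : ℝ) ^ (24 * δ * i) with hT
    have hT0 : 0 ≤ T := by positivity
    have h1 : S2.card ≤ (Icc 1 ⌊T⌋₊).card := by
      apply card_le_card_of_injOn sfp
      · intro n hn
        have hn' := mem_filter.1 (Finset.mem_coe.1 hn)
        obtain ⟨hc, h1, h2, h0⟩ := hcellS n hn'.1
        have h3 := dec_pos h0
        rw [Finset.mem_coe, mem_Icc]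
        refine ⟨h3.2, Nat.le_floor ?_⟩
        have h4 := (dec n).1
        have h5 : (sqp n : ℝ) ^ 2 * (sfp n : ℝ) ≤ 2 * (2 : ℝ) ^ (i : ℝ) := by
          have h6 : sqp n ^ 2 * sfp n ≤ 2 * 2 ^ i := by
            rw [h4, ← pow_succ']
            exact h2
          rw [Real.rpow_natCast]
          exact_mod_cast h6
        have h7 : M1 < sqp n := not_le.1 hn'.2
        have h8 : M1 ^ 2 ≤ (sqp n : ℝ) ^ 2 := pow_le_pow_left₀ hM1p.le h7.le 2
        have h9 : M1 ^ 2 * T = 2 * (2 : ℝ) ^ (i : ℝ) := by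
          rw [hT, hM1, ← Real.rpow_natCast, ← Real.rpow_mul (by norm_num), mul_left_comm,
            ← Real.rpow_add (by norm_num)]
          congr 2
          push_cast
          ring
        have h10 : M1 ^ 2 * (sfp n : ℝ) ≤ M1 ^ 2 * T := by
          rw [h9]
          refine le_trans ?_ h5
          exact mul_le_mul_of_nonneg_right h8 (Nat.cast_nonneg _)
        exact le_of_mul_le_mul_left h10 (by positivity)
      · intro n hn n' hn' h
        have k1 := mem_filter.1 (Finset.mem_coe.1 hn)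
        have k2 := mem_filter.1 (Finset.mem_coe.1 hn')
        exact sfp_inj hδ (by linarith) hk (Finset.mem_coe.2 (hcellS n k1.1).1)
          (Finset.mem_coe.2 (hcellS n' k2.1).1) h
    rw [Nat.card_Icc, Nat.add_sub_cancel] at h1
    calc (S2.card : ℝ) ≤ (⌊T⌋₊ : ℝ) := by exact_mod_cast h1
      _ ≤ T := Nat.floor_le hT0
  rw [hsplit]
  linarith

/-- part 2: large square part -/
theorem part2 (E : Env) (hG : E.GBounds) : ∃ J : ℕ, ∀ j : ℕ, J ≤ j → ∀ i : ℕ, j ≤ i →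
    ∀ R k : ℕ, k < nc E.δ i →
    ∑ n ∈ (ns E R i k).filter (fun n => ¬ (sqp n : ℝ) ≤ (2 : ℝ) ^ (1 / 20 * (i : ℝ))),
      (1 / (n : ℝ)) * Ph E j i n ≤ E.w i / 128 := by
  obtain ⟨J0, hJ0, hJ⟩ := hG
  have hδ := E.hδ
  have hδ1 : E.δ ≤ 1 / 100000 := by
    have := E.hδ'
    have := E.hτ'
    linarith
  obtain ⟨J1, hJ1⟩ := Pool.Agent.W683.MO.large (5 / 2 * E.δ) 1280 41 (by linarith)
  refine ⟨J0 + J1 + 20, fun j hj i hij R k hk => ?_⟩
  obtain ⟨-, hgu, hgh, g4, g5, g6, g7, -, -⟩ := hJ j (by omega)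
  have hf := Pool.Agent.W640.MO.factor_le E (by omega) g4 g5 g6 g7
  have hiR : (20 : ℝ) ≤ i := by exact_mod_cast (by omega : 20 ≤ i)
  have hlarge := hJ1 i (by omega)
  set N2 := (ns E R i k).filter (fun n => ¬ (sqp n : ℝ) ≤ (2 : ℝ) ^ (1 / 20 * (i : ℝ))) with hN2
  set c : ℝ := 1 / 2 ^ i * (2 * (2 : ℝ) ^ (9 * E.δ * i)) with hc
  have hc0 : 0 ≤ c := by positivity
  have hpt : ∀ n ∈ N2, (1 / (n : ℝ)) * Ph E j i n ≤ c := by
    intro n hn
    rw [hN2, mem_filter] at hn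
    have h1 := hn.1
    unfold ns at h1
    rw [mem_filter] at h1
    have hn2 := Pool.Agent.W683.MO.cell_sub hδ.le hk h1.1
    have hn0 : n ≠ 0 := by omega
    have hnR : (2 : ℝ) ^ i ≤ n := by exact_mod_cast hn2.1.le
    have h7 : 1 / (n : ℝ) ≤ 1 / 2 ^ i := one_div_le_one_div_of_le (by positivity) hnR
    have h8 : Ph E j i n ≤ 2 * (2 : ℝ) ^ (9 * E.δ * i) := by
      refine (Ph_le hgu hgh hn0).trans ((E2s_le hgu hgh hf hn0).trans ?_)
      have h3 : (n : ℝ) ≤ 2 ^ (i + 1) := by exact_mod_cast hn2.2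
      calc (n : ℝ) ^ (9 * E.δ) ≤ ((2 : ℝ) ^ (i + 1)) ^ (9 * E.δ) :=
            Real.rpow_le_rpow (by positivity) h3 (by positivity)
        _ = (2 : ℝ) ^ (9 * E.δ) * (2 : ℝ) ^ (9 * E.δ * i) := by
            rw [← Real.rpow_natCast 2 (i + 1), ← Real.rpow_mul (by norm_num),
              ← Real.rpow_add (by norm_num)]
            push_cast
            ring_nf
        _ ≤ 2 * (2 : ℝ) ^ (9 * E.δ * i) := by
            apply mul_le_mul_of_nonneg_right _ (by positivity)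
            calc (2 : ℝ) ^ (9 * E.δ) ≤ (2 : ℝ) ^ (1 : ℝ) :=
                  Real.rpow_le_rpow_of_exponent_le (by norm_num) (by linarith)
              _ = 2 := Real.rpow_one 2
    exact mul_le_mul h7 h8 (Ph_nonneg hgu hgh n) (by positivity)
  have hcard : (N2.card : ℝ) ≤ hh E.δ i * ((1 + i) * (2 : ℝ) ^ (-(1 / 20) * (i : ℝ))) +
      (2 : ℝ) ^ ((1 / 2 - 12 * E.δ) * i) + 2 * (2 : ℝ) ^ (24 * E.δ * i) := by
    refine le_trans ?_ (count_sq hδ hδ1 hk)
    have : N2 ⊆ (cell E.δ i k).filter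
        (fun n => ¬ (sqp n : ℝ) ≤ (2 : ℝ) ^ (1 / 20 * (i : ℝ))) := by
      intro n hn
      rw [hN2, mem_filter] at hn
      have h1 := hn.1
      unfold ns at h1
      exact mem_filter.2 ⟨(mem_filter.1 h1).1, hn.2⟩
    exact_mod_cast card_le_card this
  have hhle := Pool.Agent.W683.MO.hh_le (δ := E.δ) (by linarith) i
  refine (sum_le_card_nsmul _ _ c hpt).trans ?_
  rw [nsmul_eq_mul]
  refine (mul_le_mul_of_nonneg_right hcard hc0).trans ?_
  set P : ℝ := (2 : ℝ) ^ (-(1 / 2 + E.δ / 2) * (i : ℝ)) with hP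
  set D : ℝ := (2 : ℝ) ^ (-(5 / 2 * E.δ) * (i : ℝ)) with hD
  have hP0 : 0 < P := by positivity
  have hD0 : 0 < D := by positivity
  have e0 : (1 : ℝ) / 2 ^ i = (2 : ℝ) ^ (-(i : ℝ)) := by
    rw [Real.rpow_neg (by norm_num), Real.rpow_natCast, one_div]
  have hi0 : (0 : ℝ) ≤ i := by linarith
  -- the three terms
  have t1 : hh E.δ i * ((1 + i) * (2 : ℝ) ^ (-(1 / 20) * (i : ℝ))) * c ≤ 2 * (1 + i) * (P * D) := by
    calc hh E.δ i * ((1 + i) * (2 : ℝ) ^ (-(1 / 20) * (i : ℝ))) * c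
        ≤ (2 : ℝ) ^ ((1 / 2 - E.δ) * i) * ((1 + i) * (2 : ℝ) ^ (-(1 / 20) * (i : ℝ))) * c := by
          gcongr
      _ = 2 * (1 + i) * (2 : ℝ) ^ ((1 / 2 - E.δ) * i + -(1 / 20) * (i : ℝ) + -(i : ℝ) +
            9 * E.δ * i) := by
          rw [hc, e0, Real.rpow_add (by norm_num), Real.rpow_add (by norm_num),
            Real.rpow_add (by norm_num)]
          ring
      _ ≤ 2 * (1 + i) * (2 : ℝ) ^ (-(1 / 2 + E.δ / 2) * (i : ℝ) + -(5 / 2 * E.δ) * (i : ℝ)) := by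
          apply mul_le_mul_of_nonneg_left _ (by positivity)
          apply Real.rpow_le_rpow_of_exponent_le (by norm_num)
          nlinarith
      _ = 2 * (1 + i) * (P * D) := by rw [Real.rpow_add (by norm_num)]
  have t2 : (2 : ℝ) ^ ((1 / 2 - 12 * E.δ) * i) * c ≤ 2 * (P * D) := by
    calc (2 : ℝ) ^ ((1 / 2 - 12 * E.δ) * i) * c
        = 2 * (2 : ℝ) ^ ((1 / 2 - 12 * E.δ) * i + -(i : ℝ) + 9 * E.δ * i) := by
          rw [hc, e0, Real.rpow_add (by norm_num), Real.rpow_add (by norm_num)]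
          ring
      _ ≤ 2 * (2 : ℝ) ^ (-(1 / 2 + E.δ / 2) * (i : ℝ) + -(5 / 2 * E.δ) * (i : ℝ)) := by
          apply mul_le_mul_of_nonneg_left _ (by norm_num)
          apply Real.rpow_le_rpow_of_exponent_le (by norm_num)
          nlinarith
      _ = 2 * (P * D) := by rw [Real.rpow_add (by norm_num)]
  have t3 : 2 * (2 : ℝ) ^ (24 * E.δ * i) * c ≤ 4 * (P * D) := by
    calc 2 * (2 : ℝ) ^ (24 * E.δ * i) * c
        = 4 * (2 : ℝ) ^ (24 * E.δ * i + -(i : ℝ) + 9 * E.δ * i) := by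
          rw [hc, e0, Real.rpow_add (by norm_num), Real.rpow_add (by norm_num)]
          ring
      _ ≤ 4 * (2 : ℝ) ^ (-(1 / 2 + E.δ / 2) * (i : ℝ) + -(5 / 2 * E.δ) * (i : ℝ)) := by
          apply mul_le_mul_of_nonneg_left _ (by norm_num)
          apply Real.rpow_le_rpow_of_exponent_le (by norm_num)
          nlinarith
      _ = 4 * (P * D) := by rw [Real.rpow_add (by norm_num)]
  have hPD : 0 < P * D := by positivity
  have h1 : (hh E.δ i * ((1 + i) * (2 : ℝ) ^ (-(1 / 20) * (i : ℝ))) +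
      (2 : ℝ) ^ ((1 / 2 - 12 * E.δ) * i) + 2 * (2 : ℝ) ^ (24 * E.δ * i)) * c ≤
      10 * i * (P * D) := by
    rw [add_mul, add_mul]
    have h2 : 2 * (1 + i) * (P * D) + 2 * (P * D) + 4 * (P * D) ≤ 10 * i * (P * D) := by
      have : (2 * (1 + (i : ℝ)) + 2 + 4) ≤ 10 * i := by linarith
      have := mul_le_mul_of_nonneg_right this hPD.le
      linarith
    linarith
  refine h1.trans ?_
  have hw : E.w i = P / (i : ℝ) ^ 40 := rfl
  rw [hw, div_div, le_div_iff₀ (by positivity)]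
  have hDinv : D * (2 : ℝ) ^ (5 / 2 * E.δ * (i : ℝ)) = 1 := by
    rw [hD, ← Real.rpow_add (by norm_num)]
    have : -(5 / 2 * E.δ) * (i : ℝ) + 5 / 2 * E.δ * (i : ℝ) = 0 := by ring
    rw [this, Real.rpow_zero]
  calc 10 * (i : ℝ) * (P * D) * ((i : ℝ) ^ 40 * 128) = P * (D * (1280 * (i : ℝ) ^ 41)) := by ring
    _ ≤ P * (D * (2 : ℝ) ^ (5 / 2 * E.δ * (i : ℝ))) := by gcongr
    _ = P := by rw [hDinv, mul_one]

/-- the small part -/
theorem sps (E : Env) (hG : E.GBounds) : ∃ J : ℕ, ∀ j : ℕ, J ≤ j → ∀ i : ℕ, j ≤ i →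
    ∀ R k : ℕ, k < nc E.δ i →
    ∑ n ∈ ns E R i k, (1 / (n : ℝ)) * Ph E j i n ≤ E.w i / 64 := by
  obtain ⟨J1, h1⟩ := part1 E hG
  obtain ⟨J2, h2⟩ := part2 E hG
  refine ⟨max J1 J2, fun j hj i hij R k hk => ?_⟩
  rw [← Finset.sum_filter_add_sum_filter_not _
    (fun n => (sqp n : ℝ) ≤ (2 : ℝ) ^ (1 / 20 * (i : ℝ)))]
  have k1 := h1 j ((le_max_left _ _).trans hj) i hij R k hk
  have k2 := h2 j ((le_max_right _ _).trans hj) i hij R k hk
  linarith

end Q236.CM
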